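import Mathlib

set_option autoImplicit false

/-! A Caro-Wei bound for relations: if among any `k + 1` elements (in any order, repetitions allowed) some earlier
one is related to some later one, then the sum of the reciprocals of the row sizes is at most `k`. -/

namespace Pool.Agent.TH816.RP

open Finset

open Classical in
theorem caro_wei {α : Type*} (R : α → α → Prop) (k : ℕ) : ∀ A : Finset α,
    (∀ a : Fin (k + 1) → α, (∀ i, a i ∈ A) → ∃ i j, i < j ∧ R (a i) (a j)) →
    ∑ a ∈ A, (1 : ℝ) / ((A.filter (fun b => R a b)).card : ℝ) ≤ k := by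
  induction k with
  | zero =>
    intro A hA
    have : A = ∅ := by
      rw [Finset.eq_empty_iff_forall_notMem]
      intro x hx
      obtain ⟨i, j, hij, _⟩ := hA (fun _ => x) (fun _ => hx)
      omega
    subst this
    simp
  | succ k ih =>
    intro A hA
    rcases A.eq_empty_or_nonempty with rfl | hne
    · simp; positivity
    have hrefl : ∀ x ∈ A, R x x := by
      intro x hx
      obtain ⟨i, j, _, h⟩ := hA (fun _ => x) (fun _ => hx)
      exact h
    obtain ⟨v, hv, hmin⟩ := A.exists_min_image (fun a => (A.filter (fun b => R a b)).card) hne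
    set N := A.filter (fun b => R v b) with hN
    set A' := A.filter (fun b => ¬ R v b) with hA'
    have hNpos : 0 < N.card := Finset.card_pos.2 ⟨v, mem_filter.2 ⟨hv, hrefl v hv⟩⟩
    have hsplit : ∑ a ∈ A, (1 : ℝ) / ((A.filter (fun b => R a b)).card : ℝ) =
        ∑ a ∈ N, (1 : ℝ) / ((A.filter (fun b => R a b)).card : ℝ) +
        ∑ a ∈ A', (1 : ℝ) / ((A.filter (fun b => R a b)).card : ℝ) := by
      rw [hN, hA', Finset.sum_filter_add_sum_filter_not]
    have h1 : ∑ a ∈ N, (1 : ℝ) / ((A.filter (fun b => R a b)).card : ℝ) ≤ 1 := by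
      calc ∑ a ∈ N, (1 : ℝ) / ((A.filter (fun b => R a b)).card : ℝ)
          ≤ ∑ _a ∈ N, (1 : ℝ) / (N.card : ℝ) := by
            apply Finset.sum_le_sum
            intro a ha
            apply one_div_le_one_div_of_le (by exact_mod_cast hNpos)
            exact_mod_cast hmin a (mem_filter.1 ha).1
        _ = 1 := by
            rw [Finset.sum_const, nsmul_eq_mul]
            field_simp
    have h2 : ∑ a ∈ A', (1 : ℝ) / ((A.filter (fun b => R a b)).card : ℝ) ≤
        ∑ a ∈ A', (1 : ℝ) / ((A'.filter (fun b => R a b)).card : ℝ) := by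
      apply Finset.sum_le_sum
      intro a ha
      apply one_div_le_one_div_of_le
      · have : 0 < (A'.filter (fun b => R a b)).card :=
          Finset.card_pos.2 ⟨a, mem_filter.2 ⟨ha, hrefl a (mem_filter.1 ha).1⟩⟩
        exact_mod_cast this
      · have : (A'.filter (fun b => R a b)).card ≤ (A.filter (fun b => R a b)).card :=
          Finset.card_le_card (Finset.filter_subset_filter _ (Finset.filter_subset _ _))
        exact_mod_cast this
    have h3 := ih A' (by
      intro a ha
      obtain ⟨i, j, hij, h⟩ := hA (Fin.cons v a) (by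
        intro i
        refine Fin.cases ?_ (fun i => ?_) i
        · simpa using hv
        · simpa using (mem_filter.1 (ha i)).1)
      revert hij h
      refine Fin.cases ?_ (fun i => ?_) i
      · refine Fin.cases ?_ (fun j => ?_) j
        · intro h; exact absurd h (lt_irrefl _)
        · intro _ h
          simp only [Fin.cons_zero, Fin.cons_succ] at h
          exact absurd h (mem_filter.1 (ha j)).2
      · refine Fin.cases ?_ (fun j => ?_) j
        · intro h; exact absurd h (by simp)
        · intro hij h
          simp only [Fin.cons_succ] at h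
          exact ⟨i, j, Fin.succ_lt_succ_iff.1 hij, h⟩)
    rw [hsplit]
    push_cast
    linarith

open Classical in
/-- the number of related pairs -/
theorem card_rel {α : Type*} [Fintype α] (R : α → α → Prop) (k : ℕ)
    (h : ∀ a : Fin (k + 1) → α, ∃ i j, i < j ∧ R (a i) (a j)) :
    (Fintype.card α) ^ 2 ≤ k * (univ.filter (fun x : α × α => R x.1 x.2)).card := by
  have h1 := caro_wei R k univ (fun a _ => h a)
  have hpos : ∀ a : α, 0 < (univ.filter (fun b => R a b)).card := by
    intro a
    obtain ⟨i, j, _, h⟩ := h (fun _ => a)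
    exact Finset.card_pos.2 ⟨a, mem_filter.2 ⟨mem_univ _, h⟩⟩
  have h2 : (univ.filter (fun x : α × α => R x.1 x.2)).card =
      ∑ a : α, (univ.filter (fun b => R a b)).card := by
    rw [Finset.card_filter, ← Finset.univ_product_univ, Finset.sum_product]
    simp only [Finset.card_filter]
  have h3 : ((Fintype.card α : ℕ) : ℝ) ^ 2 ≤ (∑ a : α, ((univ.filter (fun b => R a b)).card : ℝ)) *
      ∑ a : α, (1 : ℝ) / ((univ.filter (fun b => R a b)).card : ℝ) := by
    have h4 := Finset.sum_mul_sq_le_sq_mul_sq (univ : Finset α)
      (fun a => Real.sqrt ((univ.filter (fun b => R a b)).card : ℝ))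
      (fun a => 1 / Real.sqrt ((univ.filter (fun b => R a b)).card : ℝ))
    have h5 : ∀ a : α, Real.sqrt ((univ.filter (fun b => R a b)).card : ℝ) *
        (1 / Real.sqrt ((univ.filter (fun b => R a b)).card : ℝ)) = 1 := by
      intro a
      have : 0 < Real.sqrt ((univ.filter (fun b => R a b)).card : ℝ) :=
        Real.sqrt_pos.2 (by exact_mod_cast hpos a)
      field_simp
    simp only [h5, Finset.sum_const, Finset.card_univ, nsmul_eq_mul, mul_one] at h4
    refine h4.trans (le_of_eq ?_)
    congr 1
    · apply Finset.sum_congr rfl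
      intro a _
      exact Real.sq_sqrt (Nat.cast_nonneg _)
    · apply Finset.sum_congr rfl
      intro a _
      rw [div_pow, Real.sq_sqrt (Nat.cast_nonneg _), one_pow]
  have h6 : (0 : ℝ) ≤ ∑ a : α, ((univ.filter (fun b => R a b)).card : ℝ) :=
    Finset.sum_nonneg (fun _ _ => Nat.cast_nonneg _)
  have h7 : ((Fintype.card α : ℕ) : ℝ) ^ 2 ≤
      k * ((univ.filter (fun x : α × α => R x.1 x.2)).card : ℝ) := by
    rw [h2]
    push_cast
    calc ((Fintype.card α : ℕ) : ℝ) ^ 2 ≤ _ := h3
      _ ≤ (∑ a : α, ((univ.filter (fun b => R a b)).card : ℝ)) * k :=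
          mul_le_mul_of_nonneg_left h1 h6
      _ = _ := by ring
  exact_mod_cast h7

/-- the reversed relation has the same property -/
theorem rel_rev {α : Type*} (R : α → α → Prop) (k : ℕ)
    (h : ∀ a : Fin (k + 1) → α, ∃ i j, i < j ∧ R (a i) (a j)) :
    ∀ a : Fin (k + 1) → α, ∃ i j, i < j ∧ R (a j) (a i) := by
  intro a
  obtain ⟨i, j, hij, h⟩ := h (fun i => a i.rev)
  exact ⟨j.rev, i.rev, Fin.rev_lt_rev.2 hij, h⟩

/-- the number of strictly increasing maps -/
theorem card_strictMono (m K : ℕ) [DecidablePred (fun j : Fin m → Fin K => StrictMono j)] :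
    (univ.filter (fun j : Fin m → Fin K => StrictMono j)).card = K.choose m := by
  have h1 : (univ.filter (fun j : Fin m → Fin K => StrictMono j)).card =
      (Finset.powersetCard m (univ : Finset (Fin K))).card := by
    apply Finset.card_bij (fun j _ => univ.image j)
    · intro j hj
      rw [Finset.mem_powersetCard]
      refine ⟨subset_univ _, ?_⟩
      rw [Finset.card_image_of_injective _ (mem_filter.1 hj).2.injective, Finset.card_univ,
        Fintype.card_fin]
    · intro j hj j' hj' h
      have h1 : Set.range j = Set.range j' := by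
        have := congrArg (fun s : Finset (Fin K) => (s : Set (Fin K))) h
        simpa using this
      exact ((mem_filter.1 hj).2.range_inj (mem_filter.1 hj').2).1 h1
    · intro s hs
      rw [Finset.mem_powersetCard] at hs
      refine ⟨s.orderEmbOfFin hs.2, mem_filter.2 ⟨mem_univ _, (s.orderEmbOfFin hs.2).strictMono⟩, ?_⟩
      ext x
      rw [Finset.mem_image]
      have h2 := Finset.range_orderEmbOfFin s hs.2
      constructor
      · rintro ⟨i, _, rfl⟩
        exact Finset.orderEmbOfFin_mem s hs.2 i
      · intro hx
        have h3 : x ∈ Set.range (s.orderEmbOfFin hs.2) := by rw [h2]; exact hx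
        obtain ⟨i, hi⟩ := h3
        exact ⟨i, mem_univ _, hi⟩
  rw [h1, Finset.card_powersetCard, Finset.card_univ, Fintype.card_fin]

open Classical in
/-- counting words: if every sequence of `K` letters has a subsequence in `W`, then `W` contains at least
`|U| ^ m / C(K, m)` of the words of length `m` -/
theorem card_words {α : Type*} [Fintype α] [Nonempty α] (m K : ℕ) (W : (Fin m → α) → Prop)
    (h : ∀ a : Fin K → α, ∃ j : Fin m → Fin K, StrictMono j ∧ W (fun i => a (j i))) :
    (Fintype.card α) ^ m ≤ K.choose m * (univ.filter (fun w : Fin m → α => W w)).card := by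
  have hmK : m ≤ K := by
    obtain ⟨a⟩ : Nonempty (Fin K → α) := inferInstance
    obtain ⟨j, hj, _⟩ := h a
    simpa using Fintype.card_le_of_injective j hj.injective
  have hone : ∀ j : Fin m → Fin K, StrictMono j →
      (univ.filter (fun a : Fin K → α => W (fun i => a (j i)))).card ≤
        (univ.filter (fun w : Fin m → α => W w)).card * (Fintype.card α) ^ (K - m) := by
    intro j hj
    set Cc : Finset (Fin K) := univ \ univ.image j with hCc
    have hC : Cc.card = K - m := by
      rw [hCc, Finset.card_sdiff_of_subset (subset_univ _),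
        Finset.card_image_of_injective _ hj.injective]
      simp
    have h1 : ((univ.filter (fun w : Fin m → α => W w)) ×ˢ (univ : Finset (Cc → α))).card =
        (univ.filter (fun w : Fin m → α => W w)).card * (Fintype.card α) ^ (K - m) := by
      rw [Finset.card_product, Finset.card_univ, Fintype.card_fun, Fintype.card_coe, hC]
    rw [← h1]
    apply Finset.card_le_card_of_injOn (fun a => (fun i => a (j i), fun c : Cc => a c))
    · intro a ha
      rw [Finset.mem_coe, Finset.mem_product]
      exact ⟨mem_filter.2 ⟨mem_univ _, (mem_filter.1 ha).2⟩, mem_univ _⟩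
    · intro a _ a' _ h
      simp only [Prod.mk.injEq] at h
      funext x
      by_cases hx : x ∈ univ.image j
      · obtain ⟨i, _, rfl⟩ := mem_image.1 hx
        exact congrFun h.1 i
      · exact congrFun h.2 ⟨x, mem_sdiff.2 ⟨mem_univ _, hx⟩⟩
  have h2 : (Fintype.card α) ^ K ≤ K.choose m *
      ((univ.filter (fun w : Fin m → α => W w)).card * (Fintype.card α) ^ (K - m)) := by
    have h3 : (univ : Finset (Fin K → α)) ⊆
        (univ.filter (fun j : Fin m → Fin K => StrictMono j)).biUnion
          (fun j => univ.filter (fun a : Fin K → α => W (fun i => a (j i)))) := by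
      intro a _
      obtain ⟨j, hj, hW⟩ := h a
      exact mem_biUnion.2 ⟨j, mem_filter.2 ⟨mem_univ _, hj⟩, mem_filter.2 ⟨mem_univ _, hW⟩⟩
    have h4 := Finset.card_le_card h3
    rw [Finset.card_univ, Fintype.card_fun, Fintype.card_fin] at h4
    refine h4.trans (Finset.card_biUnion_le.trans ?_)
    refine (Finset.sum_le_sum (fun j hj => hone j (mem_filter.1 hj).2)).trans ?_
    rw [Finset.sum_const, card_strictMono, smul_eq_mul]
  have h5 : (Fintype.card α) ^ K = (Fintype.card α) ^ m * (Fintype.card α) ^ (K - m) := by
    rw [← pow_add]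
    congr 1
    omega
  rw [h5, ← mul_assoc] at h2
  exact Nat.le_of_mul_le_mul_right h2 (pow_pos Fintype.card_pos _)

end Pool.Agent.TH816.RP
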