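import Pool.Agent.TH816.RP.Ent

set_option autoImplicit false

/-! From long words to words of every length. -/

namespace Pool.Agent.TH816.RP

open Finset Pool.Agent.TH779.Ord

/-- a family of sets of words, increasing in `C` and closed under subwords -/
structure WordFam (U : Type) (O : ℕ → ∀ m : ℕ, (Fin (m + 1) → U) → Prop) : Prop where
  mono : ∀ C C' m w, C ≤ C' → O C m w → O C' m w
  sub : ∀ C M w, O C M w → ∀ (s m : ℕ) (_hs : s + (m + 1) ≤ M + 1),
    O C m (fun i : Fin (m + 1) => w ⟨s + i, by omega⟩)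

theorem Occ.mono {q m C C' : ℕ} {w : Fin (m + 1) → (ZMod q)ˣ} (h : Occ q m C w) (hC : C ≤ C') :
    Occ q m C' w :=
  Set.Infinite.mono (fun _ hk => ⟨hk.1, hk.2.trans (by omega)⟩) h

/-- subwords -/
theorem Occ.sub {q M C : ℕ} {w : Fin (M + 1) → (ZMod q)ˣ} (h : Occ q M C w) (s m : ℕ)
    (hs : s + (m + 1) ≤ M + 1) : Occ q m C (fun i : Fin (m + 1) => w ⟨s + i, by omega⟩) := by
  have hinj : Set.InjOn (fun k : ℕ => k + s)
      {k : ℕ | (∀ i : Fin (M + 1), ((Nat.nth Nat.Prime (k + i) : ℕ) : ZMod q) = w i) ∧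
        Nat.nth Nat.Prime (k + M) ≤ Nat.nth Nat.Prime k + C} := by
    intro a _ b _ hab
    simp only at hab
    omega
  refine (Set.Infinite.image hinj h).mono ?_
  rintro _ ⟨k, ⟨hk1, hk2⟩, rfl⟩
  have hmono := (Nat.nth_strictMono Nat.infinite_setOfPred_prime).monotone
  refine ⟨fun i => ?_, ?_⟩
  · have h1 := hk1 ⟨s + i, by omega⟩
    simp only at h1
    rw [← h1]
    congr 2
    ring
  · have h1 : Nat.nth Nat.Prime (k + s + m) ≤ Nat.nth Nat.Prime (k + M) := hmono (by omega)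
    have h2 : Nat.nth Nat.Prime k ≤ Nat.nth Nat.Prime (k + s) := hmono (by omega)
    simp only
    omega

theorem wordFam_Occ (q : ℕ) : WordFam (ZMod q)ˣ (fun C m w => Occ q m C w) :=
  ⟨fun _ _ _ _ h h' => h'.mono h, fun _ _ _ h s m hs => h.sub s m hs⟩

open Classical in
theorem blocks {U : Type} [Fintype U] {O : ℕ → ∀ m : ℕ, (Fin (m + 1) → U) → Prop} (hO : WordFam U O)
    (m M C k : ℕ) (hk : k * (m + 1) ≤ M + 1) :
    (univ.filter (fun w : Fin (M + 1) → U => O C M w)).card ≤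
      (univ.filter (fun w : Fin (m + 1) → U => O C m w)).card ^ k *
        (Fintype.card U) ^ (M + 1 - k * (m + 1)) := by
  have h1 : ((Fintype.piFinset (fun _ : Fin k =>
      univ.filter (fun w : Fin (m + 1) → U => O C m w))) ×ˢ
      (univ : Finset (Fin (M + 1 - k * (m + 1)) → U))).card =
      (univ.filter (fun w : Fin (m + 1) → U => O C m w)).card ^ k *
        (Fintype.card U) ^ (M + 1 - k * (m + 1)) := by
    rw [card_product, Fintype.card_piFinset_const, card_univ, Fintype.card_fun, Fintype.card_fin]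
  have hidx : ∀ (j : Fin k) (i : Fin (m + 1)), (j : ℕ) * (m + 1) + i < M + 1 := by
    intro j i
    have h2 : ((j : ℕ) + 1) * (m + 1) ≤ k * (m + 1) := Nat.mul_le_mul_right _ j.2
    rw [Nat.add_mul, Nat.one_mul] at h2
    have := i.2
    omega
  rw [← h1]
  apply Finset.card_le_card_of_injOn (fun w =>
    ((fun (j : Fin k) (i : Fin (m + 1)) => w ⟨(j : ℕ) * (m + 1) + i, hidx j i⟩),
      fun i : Fin (M + 1 - k * (m + 1)) => w ⟨k * (m + 1) + i, by omega⟩))
  · intro w hw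
    have hw' : O C M w := (mem_filter.1 hw).2
    rw [Finset.mem_coe, Finset.mem_product]
    refine ⟨?_, mem_univ _⟩
    rw [Fintype.mem_piFinset]
    intro j
    refine mem_filter.2 ⟨mem_univ _, ?_⟩
    refine hO.sub C M w hw' ((j : ℕ) * (m + 1)) m ?_
    have h2 : ((j : ℕ) + 1) * (m + 1) ≤ k * (m + 1) := Nat.mul_le_mul_right _ j.2
    rw [Nat.add_mul, Nat.one_mul] at h2
    omega
  · intro w _ w' _ h
    simp only [Prod.mk.injEq] at h
    funext x
    rcases Nat.lt_or_ge (x : ℕ) (k * (m + 1)) with hx | hx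
    · have h2 := congrFun (congrFun h.1 ⟨(x : ℕ) / (m + 1), (Nat.div_lt_iff_lt_mul (by omega)).2 hx⟩)
        ⟨(x : ℕ) % (m + 1), Nat.mod_lt _ (by omega)⟩
      have e : (⟨(x : ℕ) / (m + 1) * (m + 1) + (x : ℕ) % (m + 1), by
          rw [Nat.div_add_mod']; exact x.2⟩ : Fin (M + 1)) = x :=
        Fin.ext (Nat.div_add_mod' _ _)
      simp only at h2
      rw [e] at h2
      exact h2
    · have h2 := congrFun h.2 ⟨(x : ℕ) - k * (m + 1), by have := x.2; omega⟩
      have e : (⟨k * (m + 1) + ((x : ℕ) - k * (m + 1)), by have := x.2; omega⟩ : Fin (M + 1)) = x :=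
        Fin.ext (by simp only; omega)
      simp only at h2
      rw [e] at h2
      exact h2

open Classical in
/-- words of every length -/
theorem all_lengths {U : Type} [Fintype U] [Nonempty U] {O : ℕ → ∀ m : ℕ, (Fin (m + 1) → U) → Prop}
    (hO : WordFam U O) (B t : ℝ) (hB : 0 < B) (ht : 0 < t)
    (hlong : ∀ T : ℕ, 1 ≤ T → ∃ M C : ℕ, (T : ℝ) / t ≤ M + 1 ∧
      B ^ (M + 1) ≤ ((univ.filter (fun w : Fin (M + 1) → U => O C M w)).card : ℝ))
    (m : ℕ) : ∃ C : ℕ,
      B ^ (m + 1) ≤ ((univ.filter (fun w : Fin (m + 1) → U => O C m w)).card : ℝ) := by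
  set φ : ℕ := Fintype.card U with hφ
  have hφ1 : 1 ≤ φ := Fintype.card_pos
  -- one `C` for all words
  have hex : ∀ w : Fin (m + 1) → U, ∃ C, (∃ C', O C' m w) → O C m w := by
    intro w
    by_cases h : ∃ C', O C' m w
    · obtain ⟨C, hC⟩ := h
      exact ⟨C, fun _ => hC⟩
    · exact ⟨0, fun h' => absurd h' h⟩
  choose Cw hCw using hex
  set Cs := univ.sup Cw with hCs
  have hsub : ∀ C w, O C m w → O Cs m w := fun C w h =>
    hO.mono _ _ _ _ (le_sup (f := Cw) (mem_univ w)) (hCw w ⟨C, h⟩)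
  refine ⟨Cs, ?_⟩
  by_contra hcon
  push Not at hcon
  set W : ℕ := (univ.filter (fun w : Fin (m + 1) → U => O Cs m w)).card with hW
  have hWC : ∀ C, (univ.filter (fun w : Fin (m + 1) → U => O C m w)).card ≤ W := by
    intro C
    apply card_le_card
    intro w hw
    exact mem_filter.2 ⟨mem_univ _, hsub C w (mem_filter.1 hw).2⟩
  -- the key inequality
  have hkey : ∀ k0 : ℕ, ∃ k : ℕ, k0 ≤ k ∧ ∃ r ≤ m, B ^ (k * (m + 1) + r) ≤ (W : ℝ) ^ k * (φ : ℝ) ^ r := by
    intro k0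
    obtain ⟨T, hT⟩ := exists_nat_ge (t * ((k0 + 1 : ℕ) * (m + 1 : ℕ) : ℝ))
    obtain ⟨M, C, hM, hBM⟩ := hlong (T + 1) (by omega)
    have h1 : ((k0 + 1 : ℕ) * (m + 1 : ℕ) : ℝ) ≤ ((M + 1 : ℕ) : ℝ) := by
      have h2 : ((T + 1 : ℕ) : ℝ) / t ≤ (M : ℝ) + 1 := hM
      rw [div_le_iff₀ ht] at h2
      have h3 : t * ((k0 + 1 : ℕ) * (m + 1 : ℕ) : ℝ) ≤ t * ((M + 1 : ℕ) : ℝ) := by
        push_cast at h2 hT ⊢
        nlinarith
      exact le_of_mul_le_mul_left h3 ht
    have h1' : (k0 + 1) * (m + 1) ≤ M + 1 := by exact_mod_cast h1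
    refine ⟨(M + 1) / (m + 1), ?_, (M + 1) % (m + 1), Nat.lt_succ_iff.1 (Nat.mod_lt _ (by omega)), ?_⟩
    · have : k0 + 1 ≤ (M + 1) / (m + 1) := (Nat.le_div_iff_mul_le (by omega)).2 h1'
      omega
    · have h4 := blocks hO m M C ((M + 1) / (m + 1)) (Nat.div_mul_le_self _ _)
      have e1 : M + 1 - (M + 1) / (m + 1) * (m + 1) = (M + 1) % (m + 1) := by
        have := Nat.div_add_mod' (M + 1) (m + 1)
        omega
      rw [e1] at h4
      rw [Nat.div_add_mod']
      refine hBM.trans ?_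
      have h5 : (univ.filter (fun w : Fin (M + 1) → U => O C M w)).card ≤
          W ^ ((M + 1) / (m + 1)) * φ ^ ((M + 1) % (m + 1)) :=
        h4.trans (Nat.mul_le_mul_right _ (Nat.pow_le_pow_left (hWC C) _))
      exact_mod_cast h5
  rcases lt_or_ge B 1 with hB1 | hB1
  · -- `W = 0`
    have h1 : (W : ℝ) < 1 := hcon.trans_le (pow_le_one₀ hB.le hB1.le)
    have h2 : W = 0 := by
      have : W < 1 := by exact_mod_cast h1
      omega
    obtain ⟨k, hk, r, _, h⟩ := hkey 1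
    rw [h2] at h
    have h3 : ((0 : ℕ) : ℝ) ^ k = 0 := by
      rw [Nat.cast_zero]
      exact zero_pow (by omega)
    rw [h3, zero_mul] at h
    exact absurd h (not_le.2 (pow_pos hB _))
  · -- `B ≥ 1`
    have hBm : 0 < B ^ (m + 1) := pow_pos hB _
    set ρ : ℝ := (W : ℝ) / B ^ (m + 1) with hρ
    have hρ0 : 0 ≤ ρ := by positivity
    have hρ1 : ρ < 1 := (div_lt_one hBm).2 hcon
    have hφR : (1 : ℝ) ≤ φ := by exact_mod_cast hφ1
    obtain ⟨k0, hk0⟩ := exists_pow_lt_of_lt_one (show (0 : ℝ) < 1 / (φ : ℝ) ^ m by positivity) hρ1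
    obtain ⟨k, hk, r, hr, h⟩ := hkey k0
    have h1 : ρ ^ k < 1 / (φ : ℝ) ^ m := lt_of_le_of_lt (pow_le_pow_of_le_one hρ0 hρ1.le hk) hk0
    have h2 : (1 : ℝ) ≤ ρ ^ k * (φ : ℝ) ^ m := by
      have h3 : (1 : ℝ) ≤ B ^ r := one_le_pow₀ hB1
      have h4 : (φ : ℝ) ^ r ≤ (φ : ℝ) ^ m := pow_le_pow_right₀ hφR hr
      rw [hρ, div_pow, ← pow_mul, mul_comm (m + 1) k, div_mul_eq_mul_div, le_div_iff₀ (by positivity),
        one_mul]
      calc B ^ (k * (m + 1)) ≤ B ^ (k * (m + 1)) * B ^ r := le_mul_of_one_le_right (by positivity) h3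
        _ = B ^ (k * (m + 1) + r) := (pow_add _ _ _).symm
        _ ≤ (W : ℝ) ^ k * (φ : ℝ) ^ r := h
        _ ≤ (W : ℝ) ^ k * (φ : ℝ) ^ m := by gcongr
    have h3 : (0 : ℝ) < (φ : ℝ) ^ m := by positivity
    rw [lt_div_iff₀ h3] at h1
    linarith

open Classical in
/-- the entropy theorem, from the coloured Maynard-Tao theorem with few repetitions -/
theorem entropy_gen {U : Type} [Fintype U] [Nonempty U] {O : ℕ → ∀ m : ℕ, (Fin (m + 1) → U) → Prop}
    (hO : WordFam U O) (η : ℝ) (hη : 0 < η) (hη1 : η ≤ 1)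
    (hF : ∀ (T : ℕ) (lam : ℝ), 1 ≤ T → 2 ≤ lam → ∃ K C : ℕ, ∀ a : Fin T → U,
      ∃ P : Finset (Fin (T * K)), (T : ℝ) * (η / lam) ≤
        ∑ g : Fin T, fn lam (P.filter (fun x : Fin (T * K) => (x : ℕ) / K = (g : ℕ))).card ∧
      ∀ (m : ℕ) (x : Fin (m + 1) → Fin (T * K)), (∀ i, x i ∈ P) → StrictMono x →
        (∀ z ∈ P, ∀ i : Fin m, x i.castSucc < z → z < x i.succ → False) →
        O C m (fun i => a ⟨(x i : ℕ) / K, div_lt (x i)⟩))
    (m : ℕ) : ∃ C : ℕ,
      (Real.exp (-(2 / η + 1)) * (Fintype.card U : ℝ) / Real.log (Fintype.card U)) ^ (m + 1) ≤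
        ((univ.filter (fun w : Fin (m + 1) → U => O C m w)).card : ℝ) := by
  set φ : ℕ := Fintype.card U with hφ
  have hφ1 : 1 ≤ φ := Fintype.card_pos
  have hφR : (1 : ℝ) ≤ (φ : ℝ) := by exact_mod_cast hφ1
  have hφ0 : (0 : ℝ) < (φ : ℝ) := by linarith
  have hmain : ∀ lam : ℝ, 2 ≤ lam → ∃ C : ℕ,
      (((φ : ℝ) ^ (1 - 1 / lam)) / (lam * Real.exp (2 / η))) ^ (m + 1) ≤
        ((univ.filter (fun w : Fin (m + 1) → U => O C m w)).card : ℝ) := by
    intro lam hlam
    have hlam0 : 0 < lam := by linarith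
    apply all_lengths hO _ (lam / η) (by positivity) (by positivity)
    intro T hT
    obtain ⟨K, C, hK⟩ := hF T lam hT hlam
    obtain ⟨M, h1, h2⟩ := exists_long (O C) lam (η / lam) hlam (by positivity) T K hT hK
    refine ⟨M, C, ?_, ?_⟩
    · refine le_trans (le_of_eq ?_) h1
      field_simp
    · have e : 2 / (lam * (η / lam)) = 2 / η := by field_simp
      rw [e] at h2
      exact h2
  rcases le_or_gt 2 (Real.log φ) with h2 | h2
  · obtain ⟨C, hC⟩ := hmain _ h2
    refine ⟨C, le_trans (le_of_eq ?_) hC⟩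
    congr 1
    have hl0 : Real.log (φ : ℝ) ≠ 0 := by linarith
    have e1 : (φ : ℝ) ^ (1 - 1 / Real.log φ) = φ * Real.exp (-1) := by
      rw [Real.rpow_def_of_pos hφ0]
      have : Real.log (φ : ℝ) * (1 - 1 / Real.log φ) = Real.log φ + -1 := by
        field_simp
        ring
      rw [this, Real.exp_add, Real.exp_log hφ0]
    rw [e1]
    have e2 : Real.exp (-(2 / η + 1)) = Real.exp (-1) / Real.exp (2 / η) := by
      rw [← Real.exp_sub]; ring_nf
    rw [e2]
    field_simp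
  · obtain ⟨C, hC⟩ := hmain 2 le_rfl
    refine ⟨C, ?_⟩
    have h1 : (1 : ℝ) ≤ ((univ.filter (fun w : Fin (m + 1) → U => O C m w)).card : ℝ) := by
      have h3 : (0 : ℝ) < ((univ.filter (fun w : Fin (m + 1) → U => O C m w)).card : ℝ) :=
        lt_of_lt_of_le (by positivity) hC
      have h4 : 0 < (univ.filter (fun w : Fin (m + 1) → U => O C m w)).card := by
        exact_mod_cast h3
      exact_mod_cast h4
    refine le_trans ?_ h1
    apply pow_le_one₀
    · have := Real.log_nonneg hφR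
      positivity
    rcases Nat.eq_or_lt_of_le hφ1 with h5 | h5
    · rw [← h5]; simp
    · have h6 : (2 : ℝ) ≤ (φ : ℝ) := by exact_mod_cast h5
      have h7 : (0.6931471803 : ℝ) < Real.log 2 := Real.log_two_gt_d9
      have h8 : Real.log 2 ≤ Real.log φ := Real.log_le_log (by norm_num) h6
      rw [div_le_one (by linarith)]
      have h9 : (φ : ℝ) < Real.exp 2 := (Real.log_lt_iff_lt_exp hφ0).1 h2
      have h12 : 2 ≤ 2 / η := by rw [le_div_iff₀ hη]; linarith
      have h10 : Real.exp (-(2 / η + 1)) * (φ : ℝ) ≤ Real.exp (-1) := by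
        calc Real.exp (-(2 / η + 1)) * (φ : ℝ) ≤ Real.exp (-(2 / η + 1)) * Real.exp 2 := by gcongr
          _ = Real.exp (-(2 / η + 1) + 2) := (Real.exp_add _ _).symm
          _ ≤ Real.exp (-1) := by
              apply Real.exp_le_exp.2
              linarith
      have h11 : Real.exp (-1) ≤ 1 / 2 := by
        rw [Real.exp_neg, one_div]
        apply inv_anti₀ (by norm_num)
        have := Real.add_one_le_exp (1 : ℝ)
        linarith
      linarith

end Pool.Agent.TH816.RP
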