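import Pool.Agent.TH816.RP.ExactPat

set_option autoImplicit false

/-! From natural forms to integer forms. -/

namespace Pool.Agent.TH816.RP

open Finset

theorem force_of_nat {N : ℕ} (Ψ : Finset (Fin N) → Prop)
    (h : ∀ a b : ℕ → ℕ, (∀ x < N, 1 ≤ a x) → (∀ x < N, ∀ y < N, a x = a y → b x = b y → x = y) →
      (∀ p : ℕ, p.Prime → ∃ n : ℕ, ∀ x < N, ¬ p ∣ a x * n + b x) →
      ∀ N0 : ℕ, ∃ n, N0 < n ∧ Ψ (univ.filter (fun i : Fin N => (a i * n + b i).Prime))) :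
    Force N Ψ := by
  classical
  intro a b ha hinj hadm
  set s : ℕ := ∑ i, (b i).natAbs with hs
  have hnn : ∀ i, 0 ≤ a i * s + b i := by
    intro i
    have h1 : (b i).natAbs ≤ s :=
      Finset.single_le_sum (f := fun i => (b i).natAbs) (fun _ _ => Nat.zero_le _) (mem_univ i)
    have h2 : |b i| ≤ (s : ℤ) := by
      rw [Int.abs_eq_natAbs]; exact_mod_cast h1
    have h3 := ha i
    have h4 := neg_abs_le (b i)
    nlinarith
  set A : ℕ → ℕ := fun x => if hx : x < N then (a ⟨x, hx⟩).toNat else 1 with hA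
  set B : ℕ → ℕ := fun x => if hx : x < N then (a ⟨x, hx⟩ * s + b ⟨x, hx⟩).toNat else 1 with hB
  have hAi : ∀ x (hx : x < N), ((A x : ℕ) : ℤ) = a ⟨x, hx⟩ := by
    intro x hx
    simp only [hA, hx, dite_true]
    exact Int.toNat_of_nonneg (ha _).le
  have hBi : ∀ x (hx : x < N), ((B x : ℕ) : ℤ) = a ⟨x, hx⟩ * s + b ⟨x, hx⟩ := by
    intro x hx
    simp only [hB, hx, dite_true]
    exact Int.toNat_of_nonneg (hnn _)
  have hval : ∀ (n x : ℕ) (hx : x < N),
      ((A x * n + B x : ℕ) : ℤ) = a ⟨x, hx⟩ * ((n + s : ℕ) : ℤ) + b ⟨x, hx⟩ := by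
    intro n x hx
    push_cast
    rw [hAi x hx, hBi x hx]; ring
  have hmain := h A B
    (by
      intro x hx
      have h1 := ha ⟨x, hx⟩
      have h2 := hAi x hx
      omega)
    (by
      intro x hx y hy h1 h2
      have e1 : a ⟨x, hx⟩ = a ⟨y, hy⟩ := by rw [← hAi x hx, ← hAi y hy, h1]
      have e2 : a ⟨x, hx⟩ * s + b ⟨x, hx⟩ = a ⟨y, hy⟩ * s + b ⟨y, hy⟩ := by
        rw [← hBi x hx, ← hBi y hy, h2]
      rw [e1] at e2
      have e3 : b ⟨x, hx⟩ = b ⟨y, hy⟩ := by linarith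
      have := hinj (a₁ := ⟨x, hx⟩) (a₂ := ⟨y, hy⟩) (by simp only [Prod.mk.injEq]; exact ⟨e1, e3⟩)
      exact congrArg Fin.val this)
    (by
      intro p hp
      obtain ⟨n, hn⟩ := hadm p hp
      have hp0 : (0 : ℤ) < p := by exact_mod_cast hp.pos
      refine ⟨((n - s) % p).toNat, fun x hx hd => hn ⟨x, hx⟩ ?_⟩
      have h1 : (p : ℤ) ∣ ((A x * ((n - s) % p).toNat + B x : ℕ) : ℤ) := by exact_mod_cast hd
      rw [hval _ x hx] at h1
      push_cast at h1
      rw [Int.toNat_of_nonneg (Int.emod_nonneg _ hp0.ne')] at h1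
      have h2 : (p : ℤ) ∣ (n - s) - (n - s) % p := Int.dvd_self_sub_emod
      have h3 := dvd_add h1 (Dvd.dvd.mul_left h2 (a ⟨x, hx⟩))
      have e : a ⟨x, hx⟩ * ((n - s) % p + s) + b ⟨x, hx⟩ + a ⟨x, hx⟩ * ((n - s) - (n - s) % p) =
          a ⟨x, hx⟩ * n + b ⟨x, hx⟩ := by ring
      rwa [e] at h3)
  -- the patterns
  set PP : ℕ → Finset (Fin N) := fun n => univ.filter (fun i => ∃ p : ℕ, p.Prime ∧ (p : ℤ) = a i * n + b i)
    with hPP
  have hset : ∀ n : ℕ, univ.filter (fun i : Fin N => (A i * n + B i).Prime) = PP (n + s) := by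
    intro n
    ext i
    simp only [hPP, mem_filter, mem_univ, true_and]
    constructor
    · intro h1
      exact ⟨_, h1, hval n i i.2⟩
    · rintro ⟨p, hp, h1⟩
      have h2 : p = A i * n + B i := by
        have := hval n i i.2
        rw [← h1] at this
        exact_mod_cast this.symm
      rwa [← h2]
  have hinf : {n : ℕ | Ψ (PP n)}.Infinite := by
    rw [Set.infinite_iff_exists_gt]
    intro N0
    obtain ⟨n, hn1, hn2⟩ := hmain N0
    refine ⟨n + s, ?_, by omega⟩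
    change Ψ (PP (n + s))
    rw [← hset]
    exact hn2
  obtain ⟨P, hP⟩ := pigeon PP hinf
  obtain ⟨n0, hn0⟩ := hP.nonempty
  refine ⟨P, ?_, hP.mono ?_⟩
  · rw [← hn0.2]; exact hn0.1
  · rintro n ⟨_, hn⟩
    intro i
    rw [← hn]
    simp only [hPP, mem_filter, mem_univ, true_and]

end Pool.Agent.TH816.RP
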