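import Pool.Agent.TH779.Ord.Exact
import Pool.Agent.TH816.RP.ForceNat
import Pool.Agent.TH816.RP.Ent2

set_option autoImplicit false

/-! Almost all the groups which are hit contain exactly one prime (helper779); the entropy theorem. -/

namespace Pool.Agent.TH816.RP

open Finset Pool.Agent.TH779.Ord

theorem force_few (T : ℕ) (lam : ℝ) (hT : 1 ≤ T) (hlam : 1 ≤ lam) : ∃ K : ℕ,
    Force (T * K) (fun P : Finset (Fin (T * K)) => (T : ℝ) / (40 * lam) ≤
      ∑ g : Fin T, fn lam (P.filter (fun x : Fin (T * K) => (x : ℕ) / K = (g : ℕ))).card) := by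
  classical
  obtain ⟨K, hK, hmain⟩ := few_nat T lam hT hlam
  refine ⟨K, force_of_nat _ ?_⟩
  intro a b ha hinj hadm N0
  obtain ⟨n, hn1, hn2⟩ := hmain a b ha hinj hadm N0
  refine ⟨n, hn1, hn2.trans (le_of_eq ?_)⟩
  rw [← Fin.sum_univ_eq_sum_range (fun g => fn lam ((range (T * K)).filter
    (fun x => x / K = g ∧ (a x * n + b x).Prime)).card) T]
  apply sum_congr rfl
  intro g _
  congr 1
  symm
  apply card_bij (fun (i : Fin (T * K)) _ => (i : ℕ))
  · intro i hi
    simp only [mem_filter, mem_univ, true_and] at hi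
    rw [mem_filter, mem_range]
    exact ⟨i.2, hi.2, hi.1⟩
  · intro i _ j _ h
    exact Fin.ext h
  · intro x hx
    rw [mem_filter, mem_range] at hx
    obtain ⟨h1, h2, h3⟩ := hx
    refine ⟨⟨x, h1⟩, ?_, rfl⟩
    simp only [mem_filter, mem_univ, true_and]
    exact ⟨h3, h2⟩

open Classical in
theorem entropy_mod (q : ℕ) [NeZero q] (m : ℕ) : ∃ C : ℕ,
    (Real.exp (-81) * (q.totient : ℝ) / Real.log q.totient) ^ (m + 1) ≤
      ((univ.filter (fun w : Fin (m + 1) → (ZMod q)ˣ => Occ q m C w)).card : ℝ) := by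
  have h := entropy_gen (wordFam_Occ q) (1 / 40) (by norm_num) (by norm_num) (by
    intro T lam hT hlam
    obtain ⟨K, hK⟩ := force_few T lam hT (by linarith)
    refine ⟨K, q * (T * K).factorial * (T * K), fun a => ?_⟩
    obtain ⟨P, hP, hocc⟩ := patterns _ hK q (Nat.one_le_iff_ne_zero.2 (NeZero.ne q))
      (fun j => a ⟨(j : ℕ) / K, div_lt j⟩)
    refine ⟨P, le_trans (le_of_eq ?_) hP, hocc⟩
    field_simp) m
  rw [ZMod.card_units_eq_totient] at h
  have e : (-(2 / (1 / 40) + 1) : ℝ) = -81 := by norm_num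
  rw [e] at h
  exact h

end Pool.Agent.TH816.RP
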