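import Mathlib

set_option autoImplicit false

/-!
Exact patterns of primes near `n` with `n` divisible by `q`: the primes within distance `R` of `n` are exactly the
`n + off i`, `i ∈ P`. (The construction of `Pool.Agent.H732R3.HausQ.exact_Q`, helper732, for general offsets and
for a general property `Ψ` of the set of the forms which are prime.)
-/

namespace Pool.Agent.TH816.RP

open Finset

/-- within distance `R` of `n` the primes are exactly the `n + y`, `y ∈ P` -/
def Exact (P : Finset ℤ) (R : ℕ) (n : ℕ) : Prop :=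
  ∀ y : ℤ, |y| ≤ R → ((∃ p : ℕ, p.Prime ∧ (p : ℤ) = n + y) ↔ y ∈ P)

/-- the forms `a i * n + b i` with a prime value at `n` are exactly those with index in `P` -/
def PatAt {N : ℕ} (a b : Fin N → ℤ) (P : Finset (Fin N)) (n : ℕ) : Prop :=
  ∀ i, i ∈ P ↔ ∃ p : ℕ, p.Prime ∧ (p : ℤ) = a i * n + b i

/-- every admissible family of `N` forms shows some pattern with the property `Ψ` infinitely often -/
def Force (N : ℕ) (Ψ : Finset (Fin N) → Prop) : Prop := ∀ (a b : Fin N → ℤ), (∀ i, 0 < a i) →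
  Function.Injective (fun i => (a i, b i)) →
  (∀ p : ℕ, p.Prime → ∃ n : ℤ, ∀ i, ¬ ((p : ℤ) ∣ a i * n + b i)) →
  ∃ P : Finset (Fin N), Ψ P ∧ {n : ℕ | PatAt a b P n}.Infinite

/-- pigeonhole for patterns -/
theorem pigeon {N : ℕ} (PP : ℕ → Finset (Fin N)) {A : Set ℕ} (hA : A.Infinite) :
    ∃ P : Finset (Fin N), {n ∈ A | PP n = P}.Infinite := by
  by_contra hcon
  push Not at hcon
  apply hA
  have h1 : A ⊆ ⋃ P : Finset (Fin N), {n ∈ A | PP n = P} := by
    intro n hn
    exact Set.mem_iUnion.2 ⟨PP n, hn, rfl⟩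
  exact (Set.finite_iUnion (fun P => hcon P)).subset h1

theorem exact_pat {N : ℕ} (Ψ : Finset (Fin N) → Prop) (hq : Force N Ψ)
    (q : ℕ) (hq1 : 1 ≤ q) (off : Fin N → ℤ) (hinj : Function.Injective off)
    (hcop : ∀ p : ℕ, p.Prime → p ∣ q → ∀ i, ¬ ((p : ℤ) ∣ off i))
    (hadm : ∀ p : ℕ, p.Prime → ¬ p ∣ q → ∃ m : ℤ, ∀ i, ¬ ((p : ℤ) ∣ m + off i)) (R : ℕ) :
    ∃ P : Finset (Fin N), Ψ P ∧ {n : ℕ | q ∣ n ∧ Exact (P.image off) R n}.Infinite := by
  classical
  have hqz : (0 : ℤ) < q := by exact_mod_cast hq1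
  set Off : Finset ℤ := univ.image off with hOffdef
  have hOff : ∀ i, off i ∈ Off := fun i => mem_image.2 ⟨i, mem_univ _, rfl⟩
  set X : ℕ := R + (∑ y ∈ Off, y.natAbs) + q with hX
  have hXoff : ∀ y ∈ Off, |y| + R ≤ X := by
    intro y hy
    have h1 : y.natAbs ≤ ∑ y ∈ Off, y.natAbs :=
      single_le_sum (f := fun y : ℤ => y.natAbs) (fun _ _ => Nat.zero_le _) hy
    rw [Int.abs_eq_natAbs, hX]
    have : ((y.natAbs : ℕ) : ℤ) ≤ ((∑ y ∈ Off, y.natAbs : ℕ) : ℤ) := by exact_mod_cast h1
    push_cast at this ⊢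
    linarith
  have hpinf : {p : ℕ | p.Prime ∧ X < p}.Infinite := by
    rw [Set.infinite_iff_exists_gt]
    intro N
    obtain ⟨p, hp1, hp2⟩ := Nat.exists_infinite_primes (N + X + 1)
    exact ⟨p, ⟨hp2, by omega⟩, by omega⟩
  let emb := Set.Infinite.natEmbedding _ hpinf
  let pr : ℤ → ℕ := fun y => (emb ((y + R).toNat)).1
  have hpr : ∀ y, (pr y).Prime ∧ X < pr y := fun y => (emb ((y + R).toNat)).2
  set B : Finset ℤ := (Icc (-(R : ℤ)) R).filter (fun y => y ∉ Off) with hB
  have hprinj : ∀ y ∈ B, ∀ y' ∈ B, pr y = pr y' → y = y' := by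
    intro y hy y' hy' h
    have h1 := emb.injective (Subtype.ext h)
    have h2 := mem_Icc.1 (mem_filter.1 hy).1
    have h3 := mem_Icc.1 (mem_filter.1 hy').1
    have h4 : ((y + R).toNat : ℤ) = ((y' + R).toNat : ℤ) := by exact_mod_cast h1
    rw [Int.toNat_of_nonneg (by linarith [h2.1]), Int.toNat_of_nonneg (by linarith [h3.1])] at h4
    linarith
  set q' : ℕ := ∏ y ∈ B, pr y with hq'
  have hq'0 : 0 < q' := prod_pos fun y _ => (hpr y).1.pos
  have hpair : Set.Pairwise (B : Set ℤ) (Function.onFun Nat.Coprime pr) := by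
    intro y hy y' hy' hne
    exact (Nat.coprime_primes (hpr y).1 (hpr y').1).2 fun h => hne (hprinj y hy y' hy' h)
  obtain ⟨ν0, hν0⟩ := Nat.chineseRemainderOfFinset (fun y : ℤ => ((-y) % pr y).toNat) pr B
    (fun y _ => (hpr y).1.ne_zero) hpair
  have hqq' : Nat.Coprime q' q := by
    rw [hq']
    apply Nat.Coprime.prod_left
    intro y _
    rw [Nat.Prime.coprime_iff_not_dvd (hpr y).1]
    intro hd
    have h1 := Nat.le_of_dvd hq1 hd
    have h2 := (hpr y).2
    omega
  obtain ⟨ν, hν1, hν2⟩ := Nat.chineseRemainder hqq' ν0 0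
  have hνr : q ∣ ν := (Nat.modEq_zero_iff_dvd).1 hν2
  have hνd : ∀ y ∈ B, (pr y : ℤ) ∣ (ν : ℤ) + y := by
    intro y hy
    have h0 : (pr y : ℤ) ∣ (ν0 : ℤ) - ν := by
      have h1 : (pr y : ℤ) ∣ (q' : ℤ) := by
        rw [hq']
        exact_mod_cast Finset.dvd_prod_of_mem pr hy
      exact h1.trans (Nat.modEq_iff_dvd.1 hν1)
    have h1 := hν0 y hy
    have h2 : (pr y : ℤ) ∣ (((-y) % pr y).toNat : ℤ) - (ν0 : ℤ) := Nat.modEq_iff_dvd.1 h1
    rw [Int.toNat_of_nonneg (Int.emod_nonneg _ (by exact_mod_cast (hpr y).1.ne_zero))] at h2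
    have h3 : (pr y : ℤ) ∣ (-y) - (-y) % pr y := Int.dvd_self_sub_emod
    have h4 := dvd_add (dvd_add h2 h3) h0
    have h5 : ((-y) % (pr y : ℤ) - (ν0 : ℤ)) + ((-y) - (-y) % pr y) + ((ν0 : ℤ) - ν) =
        -((ν : ℤ) + y) := by ring
    rw [h5] at h4
    exact (dvd_neg).1 h4
  obtain ⟨P, hΨ, hinf⟩ := hq (fun _ => (q' : ℤ) * q) (fun i => ν + off i)
    (fun _ => by
      have : (0 : ℤ) < q' := by exact_mod_cast hq'0
      positivity)
    (by
      intro x y hxy
      simp only [Prod.mk.injEq, true_and, add_right_inj] at hxy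
      exact hinj hxy)
    (by
      intro p hp
      have hpp := Nat.prime_iff_prime_int.1 hp
      by_cases hpB : ∃ y ∈ B, pr y = p
      · obtain ⟨y, hy, rfl⟩ := hpB
        refine ⟨0, fun i hd => ?_⟩
        rw [mul_zero, zero_add] at hd
        have h1 := dvd_sub hd (hνd y hy)
        have h2 : (ν : ℤ) + off i - (ν + y) = off i - y := by ring
        rw [h2] at h1
        have h3 := hXoff _ (hOff i)
        have h4 := mem_Icc.1 (mem_filter.1 hy).1
        have h5 : |off i - y| < pr y := by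
          have h6 : (X : ℤ) < pr y := by exact_mod_cast (hpr y).2
          have h7 : |y| ≤ R := abs_le.2 h4
          calc |off i - y| ≤ |off i| + |y| := abs_sub _ _
            _ < pr y := by linarith
        have h8 : off i - y = 0 := Int.eq_zero_of_abs_lt_dvd h1 h5
        have h9 : y = off i := by linarith
        exact (mem_filter.1 hy).2 (h9 ▸ hOff i)
      · have hpq : ¬ (p : ℤ) ∣ (q' : ℤ) := by
          intro hd
          rw [hq'] at hd
          push_cast at hd
          obtain ⟨y, hy, hdy⟩ := (Prime.dvd_finsetProd_iff hpp _).1 hd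
          exact hpB ⟨y, hy, ((Nat.prime_dvd_prime_iff_eq hp (hpr y).1).1 (by exact_mod_cast hdy)).symm⟩
        by_cases hpq2 : p ∣ q
        · refine ⟨0, fun i hd => ?_⟩
          rw [mul_zero, zero_add] at hd
          have h2 : (p : ℤ) ∣ ν := by exact_mod_cast hpq2.trans hνr
          exact hcop p hp hpq2 i ((dvd_add_right h2).1 hd)
        · have hcop : IsCoprime (q' : ℤ) (p : ℤ) := by
            rw [isCoprime_comm]
            exact (Prime.coprime_iff_not_dvd hpp).2 hpq
          have hcop2 : IsCoprime (q : ℤ) (p : ℤ) := by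
            rw [isCoprime_comm]
            exact (Prime.coprime_iff_not_dvd hpp).2 (by exact_mod_cast hpq2)
          have hcop3 : IsCoprime ((q' : ℤ) * q) (p : ℤ) := hcop.mul_left hcop2
          obtain ⟨u, w, huw⟩ := hcop3
          obtain ⟨m0, hm0⟩ := hadm p hp hpq2
          refine ⟨u * (m0 - ν), fun i hd => hm0 i ?_⟩
          have e1 : (q' : ℤ) * q * (u * (m0 - ν)) + (ν + off i) =
              (m0 + off i) + (-(w * (m0 - ν))) * p := by
            have : u * ((q' : ℤ) * q) = 1 - w * p := by linarith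
            calc (q' : ℤ) * q * (u * (m0 - ν)) + (ν + off i)
                = (u * (q' * q)) * (m0 - ν) + (ν + off i) := by ring
              _ = _ := by rw [this]; ring
          rw [e1] at hd
          exact (dvd_add_left (Dvd.intro_left _ rfl)).1 hd)
  -- large elements
  set big : ℕ := R + ∑ y ∈ B, pr y with hbig
  set A : Set ℕ := {m : ℕ | PatAt (fun _ => (q' : ℤ) * q) (fun i => ν + off i) P m ∧ big < m} with hA
  have hAinf : A.Infinite := by
    have h1 : {m : ℕ | PatAt (fun _ => (q' : ℤ) * q) (fun i => ν + off i) P m} ⊆ A ∪ Set.Iic big := by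
      intro m hm
      by_cases h : big < m
      · exact Or.inl ⟨hm, h⟩
      · exact Or.inr (not_lt.1 h)
    intro hfin
    exact hinf ((hfin.union (Set.finite_Iic big)).subset h1)
  refine ⟨P, hΨ, ?_⟩
  have hinj2 : Set.InjOn (fun m : ℕ => q' * q * m + ν) A := by
    intro m _ m' _ h
    simp only [add_left_inj] at h
    exact Nat.eq_of_mul_eq_mul_left (by positivity) h
  refine (hAinf.image hinj2).mono ?_
  rintro _ ⟨m, ⟨hmP, hmb⟩, rfl⟩
  refine ⟨?_, ?_⟩
  · exact dvd_add (by rw [mul_comm q' q, mul_assoc]; exact Dvd.intro _ rfl) hνr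
  intro y hy
  by_cases hyO : y ∈ Off
  · obtain ⟨i, _, rfl⟩ := mem_image.1 hyO
    have h1 : off i ∈ P.image off ↔ i ∈ P := by
      rw [mem_image]
      constructor
      · rintro ⟨j, hj, he⟩
        rwa [hinj he] at hj
      · intro h; exact ⟨i, h, rfl⟩
    rw [h1, hmP i]
    have h2 : (((q' * q * m + ν : ℕ) : ℤ) + off i) = (q' : ℤ) * q * m + (ν + off i) := by
      push_cast; ring
    rw [h2]
  · have hyB : y ∈ B := mem_filter.2 ⟨mem_Icc.2 (abs_le.1 hy), hyO⟩
    constructor
    · rintro ⟨p, hp, hpe⟩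
      exfalso
      have h1 : (pr y : ℤ) ∣ p := by
        rw [hpe]
        have h2 : (pr y : ℤ) ∣ (q' : ℤ) * (q * m) := by
          apply Dvd.dvd.mul_right
          rw [hq']
          exact_mod_cast Finset.dvd_prod_of_mem pr hyB
        have h3 := dvd_add h2 (hνd y hyB)
        have h4 : ((q' * q * m + ν : ℕ) : ℤ) + y = (q' : ℤ) * (q * m) + (ν + y) := by
          push_cast; ring
        rw [h4]; exact h3
      have h5 : pr y = p := (Nat.prime_dvd_prime_iff_eq (hpr y).1 hp).1 (by exact_mod_cast h1)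
      have h6 : pr y ≤ ∑ y ∈ B, pr y :=
        single_le_sum (f := pr) (fun _ _ => Nat.zero_le _) hyB
      have h7 : (p : ℤ) ≤ big - R := by
        rw [← h5, hbig]; push_cast
        have : (pr y : ℤ) ≤ ∑ y ∈ B, (pr y : ℤ) := by exact_mod_cast h6
        linarith
      have h8 : (m : ℤ) ≤ q' * q * m := by
        have : 1 ≤ q' * q := Nat.mul_pos hq'0 hq1
        have h9 : m ≤ q' * q * m := Nat.le_mul_of_pos_left m this
        exact_mod_cast h9
      have h9 : (big : ℤ) < m := by exact_mod_cast hmb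
      have h10 := (abs_le.1 hy).1
      rw [hpe] at h7
      push_cast at h7
      have h11 : (0 : ℤ) ≤ ν := by positivity
      linarith
    · intro h
      obtain ⟨i, _, he⟩ := mem_image.1 h
      exact absurd (he ▸ hOff i) hyO

/-- few residue classes are no obstruction -/
theorem exists_shift {N p : ℕ} (hp : p.Prime) (hN : N < p) (H : Fin N → ℤ) :
    ∃ n : ℤ, ∀ i, ¬ ((p : ℤ) ∣ n + H i) := by
  have : Fact p.Prime := ⟨hp⟩
  classical
  set s : Finset (ZMod p) := univ.image fun x : Fin N => -(H x : ZMod p) with hs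
  have hc : s.card < Fintype.card (ZMod p) := by
    calc s.card ≤ (univ : Finset (Fin N)).card := card_image_le
      _ = N := by simp
      _ < p := hN
      _ = _ := (ZMod.card p).symm
  obtain ⟨n, hn⟩ : ∃ n : ZMod p, n ∉ s := by
    by_contra h
    push Not at h
    have : s = univ := by
      ext x; simp [h x]
    rw [this, Finset.card_univ] at hc
    exact absurd hc (lt_irrefl _)
  refine ⟨(n.val : ℤ), fun i hd => hn ?_⟩
  rw [hs, mem_image]
  refine ⟨i, mem_univ _, ?_⟩
  have h1 := (ZMod.intCast_zmod_eq_zero_iff_dvd ((n.val : ℤ) + H i) p).2 hd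
  push_cast at h1
  rw [ZMod.natCast_zmod_val] at h1
  exact (eq_neg_of_add_eq_zero_left h1).symm

end Pool.Agent.TH816.RP
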