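import Pool.Agent.TH816.RP.Nth
import Pool.Agent.TH816.RP.ExactPat

set_option autoImplicit false

/-! Words of residue classes of consecutive primes. -/

namespace Pool.Agent.TH816.RP

open Finset

/-- an exact pattern gives infinitely many runs of consecutive primes -/
theorem occ_of_exact (q m : ℕ) (P : Finset ℤ) (y : Fin (m + 1) → ℤ) (hyP : ∀ i, y i ∈ P)
    (hy : StrictMono y) (hno : ∀ z ∈ P, ∀ i : Fin m, y i.castSucc < z → z < y i.succ → False)
    (R : ℕ) (hR : ∀ i, |y i| ≤ R) (hinf : {n : ℕ | q ∣ n ∧ Exact P R n}.Infinite) :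
    {k : ℕ | (∀ i : Fin (m + 1), ((Nat.nth Nat.Prime (k + i) : ℕ) : ℤ) ≡ y i [ZMOD q]) ∧
      ((Nat.nth Nat.Prime (k + m) : ℕ) : ℤ) = (Nat.nth Nat.Prime k : ℕ) + (y (Fin.last m) - y 0)}.Infinite := by
  set y' : ℕ → ℤ := fun i => y ⟨min i m, by omega⟩ with hy'
  have hpp : ∀ n : ℕ, Exact P R n → ∀ i, ((n + y' i).toNat).Prime ∧ (((n + y' i).toNat : ℕ) : ℤ) = n + y' i := by
    intro n hn i
    obtain ⟨p, hp, hpe⟩ := (hn (y' i) (hR _)).2 (hyP _)
    have h0 : (0 : ℤ) ≤ n + y' i := by rw [← hpe]; positivity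
    have h1 : (((n + y' i).toNat : ℕ) : ℤ) = n + y' i := Int.toNat_of_nonneg h0
    refine ⟨?_, h1⟩
    have h2 : (n + y' i).toNat = p := by
      have : (((n + y' i).toNat : ℕ) : ℤ) = p := by rw [h1, hpe]
      exact_mod_cast this
    rw [h2]; exact hp
  have hrun : ∀ n : ℕ, Exact P R n → ∀ i ≤ m,
      ((Nat.nth Nat.Prime (Nat.count Nat.Prime (n + y' 0).toNat + i) : ℕ) : ℤ) = n + y' i := by
    intro n hn i hi
    have h1 := nth_run (fun i => (n + y' i).toNat) m (fun i _ => (hpp n hn i).1)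
      (by
        intro i hi
        have h2 : y' i < y' (i + 1) := by
          apply hy
          rw [Fin.lt_def]
          simp only
          omega
        have h3 := (hpp n hn i).2
        have h4 := (hpp n hn (i + 1)).2
        zify
        rw [h3, h4]
        linarith)
      (by
        intro i hi r hr1 hr2 hr
        have h3 := (hpp n hn i).2
        have h4 := (hpp n hn (i + 1)).2
        have h5 : y' i < (r : ℤ) - n := by
          have : (((n + y' i).toNat : ℕ) : ℤ) < r := by exact_mod_cast hr1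
          linarith
        have h6 : (r : ℤ) - n < y' (i + 1) := by
          have : (r : ℤ) < (((n + y' (i + 1)).toNat : ℕ) : ℤ) := by exact_mod_cast hr2
          linarith
        have h7 : |(r : ℤ) - n| ≤ R := by
          rw [abs_le]
          have h8 := (abs_le.1 (hR ⟨min i m, by omega⟩)).1
          have h9 := (abs_le.1 (hR ⟨min (i + 1) m, by omega⟩)).2
          simp only [hy'] at h5 h6
          constructor <;> linarith
        have h8 := (hn _ h7).1 ⟨r, hr, by ring⟩
        have e1 : y' i = y (Fin.castSucc ⟨i, hi⟩) := by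
          simp only [hy']
          congr 1
          apply Fin.ext
          simp; omega
        have e2 : y' (i + 1) = y (Fin.succ ⟨i, hi⟩) := by
          simp only [hy']
          congr 1
          apply Fin.ext
          simp; omega
        exact hno _ h8 ⟨i, hi⟩ (by rw [← e1]; exact h5) (by rw [← e2]; exact h6)) i hi
    have h2 : Nat.nth Nat.Prime (Nat.count Nat.Prime (n + y' 0).toNat + i) = (n + y' i).toNat := h1
    rw [h2, (hpp n hn i).2]
  have hinj : Set.InjOn (fun n : ℕ => Nat.count Nat.Prime (n + y' 0).toNat) {n : ℕ | q ∣ n ∧ Exact P R n} := by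
    intro n hn n' hn' h
    simp only at h
    have h1 := hrun n hn.2 0 (Nat.zero_le _)
    have h2 := hrun n' hn'.2 0 (Nat.zero_le _)
    rw [h] at h1
    have : (n : ℤ) = n' := by linarith
    exact_mod_cast this
  refine (hinf.image hinj).mono ?_
  rintro _ ⟨n, ⟨hqn, hn⟩, rfl⟩
  refine ⟨fun i => ?_, ?_⟩
  · have h1 := hrun n hn i (by omega)
    have e1 : y' i = y i := by
      simp only [hy']
      congr 1
      apply Fin.ext
      simp; omega
    simp only
    rw [h1, e1]
    have : (n : ℤ) ≡ 0 [ZMOD q] := (Int.modEq_zero_iff_dvd).2 (by exact_mod_cast hqn)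
    simpa using this.add_right (y i)
  · have h1 := hrun n hn m le_rfl
    have h0 := hrun n hn 0 (Nat.zero_le _)
    have e1 : y' m = y (Fin.last m) := by
      simp only [hy']
      congr 1
      apply Fin.ext
      simp
    have e2 : y' 0 = y 0 := by
      simp only [hy']
      congr 1
    simp only
    simp only [add_zero] at h0
    rw [h1, h0, e1, e2]
    ring

/-- the word `w` of `m + 1` residue classes modulo `q` is, for infinitely many `k`, the word of the residues of the
consecutive primes `p_k, ..., p_(k+m)`, which lie in an interval of length `C` -/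
def Occ (q m C : ℕ) (w : Fin (m + 1) → (ZMod q)ˣ) : Prop :=
  {k : ℕ | (∀ i : Fin (m + 1), ((Nat.nth Nat.Prime (k + i) : ℕ) : ZMod q) = w i) ∧
    Nat.nth Nat.Prime (k + m) ≤ Nat.nth Nat.Prime k + C}.Infinite

/-- representatives of units -/
theorem exists_rep (q F : ℕ) (hq : 1 ≤ q) (hF : 1 ≤ F) (u : (ZMod q)ˣ) :
    ∃ r : ℕ, r < q * F ∧ Nat.Coprime r (q * F) ∧ (r : ZMod q) = u := by
  have : NeZero (q * F) := ⟨by positivity⟩
  obtain ⟨v, hv⟩ := ZMod.unitsMap_surjective (Dvd.intro F rfl : q ∣ q * F) u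
  refine ⟨(v : ZMod (q * F)).val, ZMod.val_lt _, ZMod.val_coe_unit_coprime v, ?_⟩
  rw [← hv, ZMod.unitsMap_val, ZMod.natCast_val]

/-- the word theorem: every colouring of the offsets -/
theorem patterns {N : ℕ} (Ψ : Finset (Fin N) → Prop) (hq : Force N Ψ)
    (q : ℕ) (hq1 : 1 ≤ q) (u : Fin N → (ZMod q)ˣ) :
    ∃ P : Finset (Fin N), Ψ P ∧
      ∀ (m : ℕ) (x : Fin (m + 1) → Fin N), (∀ i, x i ∈ P) → StrictMono x →
        (∀ z ∈ P, ∀ i : Fin m, x i.castSucc < z → z < x i.succ → False) →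
        Occ q m (q * N.factorial * N) (fun i => u (x i)) := by
  classical
  set F : ℕ := N.factorial with hF
  have hF1 : 1 ≤ F := Nat.factorial_pos _
  set Q : ℕ := q * F with hQ
  have hQ1 : 1 ≤ Q := Nat.mul_pos hq1 hF1
  have hrep : ∀ j : Fin N, ∃ r : ℕ, r < Q ∧ Nat.Coprime r Q ∧ (r : ZMod q) = u j :=
    fun j => exists_rep q F hq1 hF1 (u j)
  choose r hr1 hr2 hr3 using hrep
  set pos : Fin N → ℤ := fun j => r j + Q * (j : ℕ) with hpos
  have hposlt : ∀ j j' : Fin N, j < j' → pos j < pos j' := by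
    intro j j' h
    have h1 : ((j : ℕ) : ℤ) + 1 ≤ (j' : ℕ) := by exact_mod_cast h
    have h2 : (r j : ℤ) < Q := by exact_mod_cast hr1 j
    have h3 : (0 : ℤ) ≤ r j' := by positivity
    have h4 : (Q : ℤ) * ((j : ℕ) + 1) ≤ Q * (j' : ℕ) := mul_le_mul_of_nonneg_left h1 (by positivity)
    simp only [hpos]
    linarith
  have hposmono : StrictMono pos := fun j j' h => hposlt j j' h
  have hdvd : ∀ p : ℕ, p.Prime → p ∣ Q → ∀ j, ¬ ((p : ℤ) ∣ pos j) := by
    intro p hp hpQ j hd
    have h1 : (p : ℤ) ∣ Q * ((j : ℕ) : ℤ) := Dvd.dvd.mul_right (by exact_mod_cast hpQ) _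
    have h2 : (p : ℤ) ∣ r j := (dvd_add_left h1).1 hd
    have h3 : p ∣ r j := by exact_mod_cast h2
    have h4 := Nat.dvd_gcd h3 hpQ
    rw [hr2 j] at h4
    exact hp.one_lt.ne' (Nat.dvd_one.1 h4)
  obtain ⟨P, hΨ, hinf⟩ := exact_pat Ψ hq Q hQ1 pos hposmono.injective hdvd
    (by
      intro p hp hpQ
      have hlt : N < p := by
        by_contra hle
        push Not at hle
        apply hpQ
        rw [hQ]
        exact Dvd.dvd.mul_left ((hp.dvd_factorial).2 hle) _
      exact exists_shift hp hlt _) (Q * (N + 1))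
  refine ⟨P, hΨ, ?_⟩
  intro m x hxP hx hno
  have h1 := occ_of_exact Q m (P.image pos) (fun i => pos (x i)) (fun i => mem_image.2 ⟨_, hxP i, rfl⟩)
    (fun i j hij => hposlt _ _ (hx hij)) (by
      intro z hz i hz1 hz2
      obtain ⟨j, hj, rfl⟩ := mem_image.1 hz
      exact hno j hj i (hposmono.lt_iff_lt.1 hz1) (hposmono.lt_iff_lt.1 hz2)) (Q * (N + 1)) (by
      intro i
      have h2 : (0 : ℤ) ≤ pos (x i) := by simp only [hpos]; positivity
      rw [abs_of_nonneg h2]
      have h3 : (r (x i) : ℤ) ≤ Q := by exact_mod_cast (hr1 (x i)).le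
      have h4 : (((x i : Fin N) : ℕ) : ℤ) ≤ (N : ℤ) := by exact_mod_cast (x i).2.le
      have h5 : (Q : ℤ) * ((x i : Fin N) : ℕ) ≤ Q * (N : ℤ) :=
        mul_le_mul_of_nonneg_left h4 (by positivity)
      simp only [hpos]
      push_cast at h5 ⊢
      linarith) hinf
  refine h1.mono ?_
  rintro k ⟨hk1, hk2⟩
  refine ⟨fun i => ?_, ?_⟩
  · have h2 := hk1 i
    have h3 : ((Nat.nth Nat.Prime (k + i) : ℕ) : ℤ) ≡ pos (x i) [ZMOD q] :=
      h2.of_dvd (by rw [hQ]; push_cast; exact Dvd.intro _ rfl)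
    have h4 : (((Nat.nth Nat.Prime (k + i) : ℕ) : ℤ) : ZMod q) = ((pos (x i) : ℤ) : ZMod q) :=
      (ZMod.intCast_eq_intCast_iff _ _ _).2 h3
    rw [Int.cast_natCast] at h4
    rw [h4]
    simp only [hpos]
    push_cast
    rw [hr3, hQ]
    push_cast
    rw [ZMod.natCast_self]
    ring
  · have h2 : pos (x (Fin.last m)) - pos (x 0) ≤ ((q * F * N : ℕ) : ℤ) := by
      have h3 : (r (x (Fin.last m)) : ℤ) ≤ Q := by exact_mod_cast (hr1 (x (Fin.last m))).le
      have h4 : (((x (Fin.last m) : Fin N) : ℕ) : ℤ) + 1 ≤ (N : ℤ) := by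
        exact_mod_cast (x (Fin.last m)).2
      have h5 : (Q : ℤ) * ((((x (Fin.last m)) : Fin N) : ℕ) + 1) ≤ Q * (N : ℤ) :=
        mul_le_mul_of_nonneg_left h4 (by positivity)
      have h6 : (0 : ℤ) ≤ pos (x 0) := by simp only [hpos]; positivity
      simp only [hpos] at h6 ⊢
      push_cast at h5 ⊢
      rw [hQ] at h3 h5
      push_cast at h3 h5
      rw [hQ] at h6
      push_cast at h6
      simp only [hQ]
      push_cast
      linarith
    have h3 : ((Nat.nth Nat.Prime (k + m) : ℕ) : ℤ) ≤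
        ((Nat.nth Nat.Prime k + q * F * N : ℕ) : ℤ) := by
      rw [hk2]
      push_cast at h2 ⊢
      linarith
    exact_mod_cast h3

/-- the class of an index -/
theorem div_lt {T K : ℕ} (z : Fin (T * K)) : (z : ℕ) / K < T := by
  have hK : 0 < K := by
    rcases Nat.eq_zero_or_pos K with h | h
    · subst h; exact absurd z.2 (by simp)
    · exact h
  exact (Nat.div_lt_iff_lt_mul hK).2 z.2

/-- a hit of two groups gives a pair of consecutive primes in the classes of two groups in order -/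
theorem pair_of {T K : ℕ}
    (hq : Force (T * K) (fun P : Finset (Fin (T * K)) => ∃ x : Fin (T * K), x ∈ P ∧ ∃ y : Fin (T * K), y ∈ P ∧
      (x : ℕ) / K < (y : ℕ) / K))
    (q : ℕ) (hq1 : 1 ≤ q) (a : Fin T → (ZMod q)ˣ) :
    ∃ i j : Fin T, i < j ∧ Occ q 1 (q * (T * K).factorial * (T * K)) ![a i, a j] := by
  classical
  obtain ⟨P, ⟨x, hx, y, hy, hxy⟩, hocc⟩ := patterns _ hq q hq1 (fun j => a ⟨(j : ℕ) / K, div_lt j⟩)
  set A := P.filter (fun z : Fin (T * K) => (z : ℕ) / K ≤ (x : ℕ) / K) with hA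
  have hAne : A.Nonempty := ⟨x, mem_filter.2 ⟨hx, le_rfl⟩⟩
  set x0 := A.max' hAne with hx0
  have hx0A := mem_filter.1 (A.max'_mem hAne)
  set B := P.filter (fun z => x0 < z) with hB
  have hBne : B.Nonempty := by
    refine ⟨y, mem_filter.2 ⟨hy, ?_⟩⟩
    by_contra hle
    have h1 : (y : ℕ) / K ≤ (x0 : ℕ) / K := Nat.div_le_div_right (not_lt.1 hle)
    have h2 := hx0A.2
    simp only [← hx0] at h2
    omega
  set x1 := B.min' hBne with hx1
  have hx1B := mem_filter.1 (B.min'_mem hBne)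
  have hlt : (x0 : ℕ) / K < (x1 : ℕ) / K := by
    refine lt_of_le_of_lt hx0A.2 ?_
    by_contra hle
    have h1 : x1 ∈ A := mem_filter.2 ⟨hx1B.1, not_lt.1 hle⟩
    exact absurd (A.le_max' _ h1) (not_le.2 hx1B.2)
  refine ⟨⟨(x0 : ℕ) / K, div_lt x0⟩, ⟨(x1 : ℕ) / K, div_lt x1⟩, hlt, ?_⟩
  have h1 := hocc 1 ![x0, x1] (by
      intro i
      fin_cases i
      · exact hx0A.1
      · exact hx1B.1) (by
      intro i j hij
      have h2 : i = 0 ∧ j = 1 := by
        fin_cases i <;> fin_cases j <;> simp_all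
      obtain ⟨rfl, rfl⟩ := h2
      exact hx1B.2) (by
      intro z hz i hz1 hz2
      have hi : i = 0 := Subsingleton.elim _ _
      subst hi
      have h3 : x0 < z := hz1
      have h4 : z < x1 := hz2
      exact absurd (B.min'_le z (mem_filter.2 ⟨hz, h3⟩)) (not_le.2 h4))
  convert h1 using 2
  rename_i i
  fin_cases i <;> rfl

/-- the first `m + 1` elements of a pattern -/
theorem word_of {N m : ℕ} (hq : Force N (fun P => m + 1 ≤ P.card))
    (q : ℕ) (hq1 : 1 ≤ q) (a : Fin N → (ZMod q)ˣ) :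
    ∃ j : Fin (m + 1) → Fin N, StrictMono j ∧
      Occ q m (q * N.factorial * N) (fun i => a (j i)) := by
  classical
  obtain ⟨P, hcard, hocc⟩ := patterns _ hq q hq1 a
  set e := P.orderEmbOfFin rfl with he
  refine ⟨fun i => e (Fin.castLE hcard i), ?_, ?_⟩
  · intro i j hij
    exact e.strictMono (by simpa using hij)
  · apply hocc
    · intro i
      exact P.orderEmbOfFin_mem rfl _
    · intro i j hij
      exact e.strictMono (by simpa using hij)
    · intro z hz i hz1 hz2
      have h1 : z ∈ Set.range e := by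
        rw [he, Finset.range_orderEmbOfFin]
        exact hz
      obtain ⟨k, rfl⟩ := h1
      have h2 := e.strictMono.lt_iff_lt.1 hz1
      have h3 := e.strictMono.lt_iff_lt.1 hz2
      rw [Fin.lt_def] at h2 h3
      simp at h2 h3
      omega

end Pool.Agent.TH816.RP
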