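import Pool.Agent.TH816.RP.FM
import Pool.Agent.TH816.RP.Pat
import Pool.Agent.TH816.RP.Comb

set_option autoImplicit false

/-! Words of residue classes of consecutive primes. -/

namespace Pool.Agent.TH816.RP

open Finset

theorem words (m K : ℕ) (hm : 2 ≤ m) (hK : Real.exp (4 * m + 29 / 50) ≤ K) : ∃ C : ℕ, ∀ (q : ℕ) [NeZero q],
    q.totient ^ (m + 1) ≤ K.choose (m + 1) *
      {w : Fin (m + 1) → (ZMod q)ˣ | Occ q m (C * q) w}.ncard := by
  classical
  refine ⟨K.factorial * K, ?_⟩
  intro q _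
  have h := card_words (α := (ZMod q)ˣ) (m + 1) K (fun w => Occ q m (K.factorial * K * q) w) (by
    intro a
    obtain ⟨j, hj, h⟩ := word_of (force_many m K hm hK) q (Nat.one_le_iff_ne_zero.2 (NeZero.ne q)) a
    refine ⟨j, hj, ?_⟩
    have e : q * K.factorial * K = K.factorial * K * q := by ring
    rwa [e] at h)
  rw [ZMod.card_units_eq_totient] at h
  refine h.trans (le_of_eq ?_)
  congr 1
  rw [← Set.ncard_coe_finset]
  congr 1
  ext w
  simp

end Pool.Agent.TH816.RP
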