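import Pool.Agent.TH816.RP.F4
import Pool.Agent.TH816.RP.Pat
import Pool.Agent.TH816.RP.Comb

set_option autoImplicit false

/-! Pairs of residue classes of consecutive primes. -/

namespace Pool.Agent.TH816.RP

open Finset

/-- `p_n ≡ a`, `p_(n+1) ≡ b` modulo `q` and `p_(n+1) - p_n ≤ C q` for infinitely many `n` -/
def Follows (q C : ℕ) (a b : (ZMod q)ˣ) : Prop :=
  {n : ℕ | ((Nat.nth Nat.Prime n : ℕ) : ZMod q) = a ∧ ((Nat.nth Nat.Prime (n + 1) : ℕ) : ZMod q) = b ∧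
    Nat.nth Nat.Prime (n + 1) ≤ Nat.nth Nat.Prime n + C * q}.Infinite

theorem follows_of_occ {q C : ℕ} {a b : (ZMod q)ˣ} (h : Occ q 1 (C * q) ![a, b]) : Follows q C a b := by
  refine Set.Infinite.mono ?_ h
  rintro n ⟨h1, h2⟩
  have h3 := h1 0
  have h4 := h1 1
  simp only [Fin.val_zero, add_zero, Matrix.cons_val_zero, Fin.val_one, Matrix.cons_val_one] at h3 h4
  exact ⟨h3, h4, h2⟩

theorem pairs : ∃ C : ℕ, ∀ (q : ℕ) [NeZero q],
    (∀ a : Fin 4 → (ZMod q)ˣ, ∃ i j : Fin 4, i < j ∧ Follows q C (a i) (a j)) := by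
  obtain ⟨K, hK, hF⟩ := force_four
  refine ⟨(4 * K).factorial * (4 * K), ?_⟩
  intro q _ a
  obtain ⟨i, j, hij, h⟩ := pair_of hF q (Nat.one_le_iff_ne_zero.2 (NeZero.ne q)) a
  refine ⟨i, j, hij, follows_of_occ ?_⟩
  have e : q * (4 * K).factorial * (4 * K) = (4 * K).factorial * (4 * K) * q := by ring
  rwa [e] at h

end Pool.Agent.TH816.RP
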