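import Pool.Agent.TH816.RP.Pat
import Pool.Agent.TH779.Ord.Fn

set_option autoImplicit false

/-! Counting words of residues: from almost all groups which are hit contain exactly one prime to many words. -/

namespace Pool.Agent.TH816.RP

open Finset Pool.Agent.TH779.Ord

theorem emb_index {n k : ℕ} (P : Finset (Fin n)) (h : P.card = k) (i : Fin k) :
    (P.filter (fun y => y < P.orderEmbOfFin h i)).card = i := by
  have h1 : P.filter (fun y => y < P.orderEmbOfFin h i) =
      (Finset.Iio i).map (P.orderEmbOfFin h).toEmbedding := by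
    ext y
    rw [mem_filter, mem_map]
    constructor
    · rintro ⟨hy, hlt⟩
      have h2 : y ∈ Set.range (P.orderEmbOfFin h) := by
        rw [Finset.range_orderEmbOfFin]; exact hy
      obtain ⟨j, rfl⟩ := h2
      exact ⟨j, Finset.mem_Iio.2 ((P.orderEmbOfFin h).lt_iff_lt.1 hlt), rfl⟩
    · rintro ⟨j, hj, rfl⟩
      exact ⟨P.orderEmbOfFin_mem h j, (P.orderEmbOfFin h).lt_iff_lt.2 (Finset.mem_Iio.1 hj)⟩
  rw [h1, card_map, Fin.card_Iio]

/-- the element with index number of the elements in the groups before `g` lies in group `g` -/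
theorem group_index {T K k : ℕ} (P : Finset (Fin (T * K))) (h : P.card = k) (g : Fin T)
    (hg : 0 < (P.filter (fun x : Fin (T * K) => (x : ℕ) / K = g)).card) :
    ∃ hj : ∑ g' ∈ univ.filter (fun g' : Fin T => g' < g),
        (P.filter (fun x : Fin (T * K) => (x : ℕ) / K = (g' : ℕ))).card < k,
      ((P.orderEmbOfFin h ⟨_, hj⟩ : Fin (T * K)) : ℕ) / K = g := by
  classical
  set G := P.filter (fun x : Fin (T * K) => (x : ℕ) / K = g) with hG
  have hGne : G.Nonempty := card_pos.1 hg
  set x := G.min' hGne with hx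
  have hxG := mem_filter.1 (G.min'_mem hGne)
  have h1 : x ∈ Set.range (P.orderEmbOfFin h) := by
    rw [Finset.range_orderEmbOfFin]; exact hxG.1
  obtain ⟨i, hi⟩ := h1
  have h2 := emb_index P h i
  rw [hi] at h2
  have h3 : (P.filter (fun y => y < x)).card = ∑ g' ∈ univ.filter (fun g' : Fin T => g' < g),
      (P.filter (fun x : Fin (T * K) => (x : ℕ) / K = (g' : ℕ))).card := by
    have e1 : P.filter (fun y => y < x) = P.filter (fun y : Fin (T * K) => (y : ℕ) / K < g) := by
      ext y
      simp only [mem_filter]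
      constructor
      · rintro ⟨hy, hlt⟩
        refine ⟨hy, ?_⟩
        have h4 : (y : ℕ) / K ≤ (x : ℕ) / K := Nat.div_le_div_right hlt.le
        have h5 : (x : ℕ) / K = g := hxG.2
        rcases Nat.lt_or_ge ((y : ℕ) / K) g with h6 | h6
        · exact h6
        · exfalso
          have h7 : y ∈ G := mem_filter.2 ⟨hy, by omega⟩
          exact absurd (G.min'_le y h7) (not_le.2 hlt)
      · rintro ⟨hy, hlt⟩
        refine ⟨hy, ?_⟩
        by_contra hle
        have h4 : (x : ℕ) / K ≤ (y : ℕ) / K := Nat.div_le_div_right (not_lt.1 hle)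
        have h5 : (x : ℕ) / K = g := hxG.2
        omega
    rw [e1]
    rw [card_eq_sum_card_fiberwise (f := fun y : Fin (T * K) => (⟨(y : ℕ) / K, div_lt y⟩ : Fin T))
      (t := univ.filter (fun g' : Fin T => g' < g)) (by
        intro y hy
        have h6 : (y : ℕ) / K < g := (mem_filter.1 hy).2
        simp only [coe_filter, mem_univ, true_and, Set.mem_ofPred_eq]
        exact h6)]
    apply sum_congr rfl
    intro g' hg'
    congr 1
    ext y
    simp only [mem_filter, mem_univ, true_and, Fin.ext_iff] at hg' ⊢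
    constructor
    · rintro ⟨⟨h6, _⟩, h7⟩
      exact ⟨h6, h7⟩
    · rintro ⟨h6, h7⟩
      exact ⟨⟨h6, by rw [h7]; exact hg'⟩, h7⟩
  have h4 : ∑ g' ∈ univ.filter (fun g' : Fin T => g' < g),
      (P.filter (fun x : Fin (T * K) => (x : ℕ) / K = (g' : ℕ))).card < k := by
    rw [← h3, h2]; exact i.2
  refine ⟨h4, ?_⟩
  have h5 : (⟨_, h4⟩ : Fin k) = i := by
    apply Fin.ext
    simp only
    rw [← h3, h2]
  rw [h5, hi]
  exact hxG.2

/-- the pointwise inequality for the functional -/
theorem hit_ge (lam : ℝ) (hlam : 1 ≤ lam) (m : ℕ) :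
    (1 - 1 / lam) * m + (1 / lam) * fn lam m ≤ if 0 < m then 1 else 0 := by
  have hl : lam ≠ 0 := by positivity
  have e : (1 - 1 / lam) * m + (1 / lam) * fn lam m = (m : ℝ) - m * (m - 1) := by
    unfold fn
    field_simp
    ring
  rw [e]
  split_ifs with h
  · nlinarith [sq_nonneg ((m : ℝ) - 1)]
  · have : m = 0 := by omega
    subst this
    simp

theorem one_sub_le (x : ℝ) (h0 : 0 ≤ x) (h1 : x ≤ 1 / 2) : (1 - x)⁻¹ ≤ Real.exp (2 * x) := by
  have h2 : 0 < 1 - x := by linarith
  rw [inv_le_comm₀ h2 (Real.exp_pos _), ← Real.exp_neg]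
  -- e^(-2x) ≤ 1 - x
  have h3 : Real.exp (-(2 * x)) ≤ 1 / (1 + 2 * x) := by
    rw [Real.exp_neg, one_div]
    apply inv_anti₀ (by linarith)
    have := Real.add_one_le_exp (2 * x)
    linarith
  refine h3.trans ?_
  rw [div_le_iff₀ (by linarith)]
  nlinarith

open Classical in
theorem exists_long {U : Type} [Fintype U] [Nonempty U] (O : ∀ m : ℕ, (Fin (m + 1) → U) → Prop)
    (lam η : ℝ) (hlam : 2 ≤ lam) (hη : 0 < η) (T K : ℕ) (hT : 1 ≤ T)
    (hpat : ∀ a : Fin T → U, ∃ P : Finset (Fin (T * K)), (T : ℝ) * η ≤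
      ∑ g : Fin T, fn lam (P.filter (fun x : Fin (T * K) => (x : ℕ) / K = (g : ℕ))).card ∧
      ∀ (m : ℕ) (x : Fin (m + 1) → Fin (T * K)), (∀ i, x i ∈ P) → StrictMono x →
        (∀ z ∈ P, ∀ i : Fin m, x i.castSucc < z → z < x i.succ → False) →
        O m (fun i => a ⟨(x i : ℕ) / K, div_lt (x i)⟩)) :
    ∃ m : ℕ, (T : ℝ) * η ≤ m + 1 ∧
      (((Fintype.card U : ℝ) ^ (1 - 1 / lam)) / (lam * Real.exp (2 / (lam * η)))) ^ (m + 1) ≤
        ((univ.filter (fun w : Fin (m + 1) → U => O m w)).card : ℝ) := by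
  have hlam0 : 0 < lam := by linarith
  have hlam1 : 1 ≤ lam := by linarith
  set φ : ℕ := Fintype.card U with hφ
  have hφ1 : 1 ≤ φ := Fintype.card_pos
  have hφR : (1 : ℝ) ≤ φ := by exact_mod_cast hφ1
  set β : ℝ := 1 - 1 / lam with hβ
  set y : ℝ := 1 / (lam * Real.exp (2 / (lam * η))) with hy
  set B : ℝ := (φ : ℝ) ^ β * y with hB
  have hypos : 0 < y := by positivity
  have hBpos : 0 < B := by positivity
  have hB' : ((φ : ℝ) ^ (1 - 1 / lam)) / (lam * Real.exp (2 / (lam * η))) = B := by
    rw [hB, hy, ← hβ]; ring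
  rw [hB']
  -- the patterns
  choose P hΨ hocc using hpat
  set Nv : (Fin T → U) → Fin T → ℕ := fun a g =>
    ((P a).filter (fun x : Fin (T * K) => (x : ℕ) / K = (g : ℕ))).card with hNv
  have hcard : ∀ a, (P a).card = ∑ g, Nv a g := by
    intro a
    rw [card_eq_sum_card_fiberwise (f := fun y : Fin (T * K) => (⟨(y : ℕ) / K, div_lt y⟩ : Fin T))
      (t := univ) (fun _ _ => by simp)]
    apply sum_congr rfl
    intro g _
    simp only [hNv]
    congr 1
    ext z
    simp only [mem_filter, Fin.ext_iff]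
  -- lower bounds
  have hTpos : (0 : ℝ) < (T : ℝ) * η := by
    have : (0 : ℝ) < T := by exact_mod_cast hT
    positivity
  have hsize : ∀ a, (T : ℝ) * η ≤ ((∑ g, Nv a g : ℕ) : ℝ) := by
    intro a
    refine (hΨ a).trans ?_
    push_cast
    exact sum_le_sum fun g _ => fn_le hlam0.le _
  have hhit : ∀ a, β * ((∑ g, Nv a g : ℕ) : ℝ) ≤
      ((univ.filter (fun g => 0 < Nv a g)).card : ℝ) := by
    intro a
    have h1 : ∑ g, (β * (Nv a g : ℝ) + (1 / lam) * fn lam (Nv a g)) ≤
        ∑ g, (if 0 < Nv a g then (1 : ℝ) else 0) := sum_le_sum fun g _ => hit_ge lam hlam1 _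
    rw [sum_add_distrib, ← mul_sum, ← mul_sum, sum_boole] at h1
    have h2 : 0 ≤ (1 / lam) * ∑ g, fn lam (Nv a g) :=
      mul_nonneg (by positivity) (hTpos.le.trans (hΨ a))
    push_cast
    linarith
  -- the bound for the fibres
  have hfib : ∀ N : Fin T → ℕ, ∀ m : ℕ, ∑ g, N g = m + 1 →
      (univ.filter (fun a => Nv a = N)).card ≤
        (univ.filter (fun w : Fin (m + 1) → U => O m w)).card *
          φ ^ (T - (univ.filter (fun g => 0 < N g)).card) := by
    intro N m hm
    have hk : ∀ a, Nv a = N → (P a).card = m + 1 := by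
      intro a ha
      rw [hcard a, ha, hm]
    set Z : Finset (Fin T) := univ.filter (fun g => ¬ 0 < N g) with hZ
    have hZc : Z.card = T - (univ.filter (fun g => 0 < N g)).card := by
      have h1 : (univ.filter (fun g => 0 < N g)).card + Z.card = T := by
        have h0 := Finset.card_filter_add_card_filter_not (s := (univ : Finset (Fin T)))
          (fun g => 0 < N g)
        rw [card_univ, Fintype.card_fin] at h0
        convert h0
      omega
    have h1 : ((univ.filter (fun w : Fin (m + 1) → U => O m w)) ×ˢ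
        (univ : Finset (Z → U))).card =
        (univ.filter (fun w : Fin (m + 1) → U => O m w)).card *
          φ ^ (T - (univ.filter (fun g => 0 < N g)).card) := by
      rw [card_product, card_univ, Fintype.card_fun, Fintype.card_coe, hZc]
    rw [← h1]
    apply Finset.card_le_card_of_injOn (fun a =>
      ((fun i : Fin (m + 1) => if h : Nv a = N then
        a ⟨(((P a).orderEmbOfFin (hk a h) i : Fin (T * K)) : ℕ) / K, div_lt _⟩ else Classical.arbitrary U),
        fun g : Z => a g))
    · intro a ha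
      have haN : Nv a = N := (mem_filter.1 ha).2
      rw [Finset.mem_coe, Finset.mem_product]
      refine ⟨mem_filter.2 ⟨mem_univ _, ?_⟩, mem_univ _⟩
      simp only [haN, dite_true]
      apply hocc a
      · intro i
        exact (P a).orderEmbOfFin_mem _ _
      · exact ((P a).orderEmbOfFin (hk a haN)).strictMono
      · intro z hz i hz1 hz2
        have h2 : z ∈ Set.range ((P a).orderEmbOfFin (hk a haN)) := by
          rw [Finset.range_orderEmbOfFin]; exact hz
        obtain ⟨j, rfl⟩ := h2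
        have h3 := ((P a).orderEmbOfFin (hk a haN)).lt_iff_lt.1 hz1
        have h4 := ((P a).orderEmbOfFin (hk a haN)).lt_iff_lt.1 hz2
        rw [Fin.lt_def] at h3 h4
        simp at h3 h4
        omega
    · intro a ha a' ha' heq
      have haN : Nv a = N := (mem_filter.1 ha).2
      have haN' : Nv a' = N := (mem_filter.1 ha').2
      simp only [Prod.mk.injEq] at heq
      funext g
      by_cases hg : 0 < N g
      · have h2 : 0 < Nv a g := by rw [haN]; exact hg
        have h2' : 0 < Nv a' g := by rw [haN']; exact hg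
        obtain ⟨hj, hjg⟩ := group_index (P a) (hk a haN) g h2
        obtain ⟨hj', hjg'⟩ := group_index (P a') (hk a' haN') g h2'
        have h3 : ∑ g' ∈ univ.filter (fun g' : Fin T => g' < g),
            ((P a).filter (fun x : Fin (T * K) => (x : ℕ) / K = (g' : ℕ))).card =
            ∑ g' ∈ univ.filter (fun g' : Fin T => g' < g),
            ((P a').filter (fun x : Fin (T * K) => (x : ℕ) / K = (g' : ℕ))).card := by
          apply sum_congr rfl
          intro g' _
          exact (congrFun haN g').trans (congrFun haN' g').symm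
        have h4 := congrFun heq.1 ⟨_, hj⟩
        simp only [haN, haN', dite_true] at h4
        have e1 : (⟨((P a).orderEmbOfFin (hk a haN) ⟨_, hj⟩ : ℕ) / K, div_lt _⟩ : Fin T) = g :=
          Fin.ext hjg
        have e2 : (⟨((P a').orderEmbOfFin (hk a' haN') ⟨_, hj⟩ : ℕ) / K, div_lt _⟩ : Fin T) = g := by
          apply Fin.ext
          simp only
          rw [← hjg']
          congr 4
        rw [e1, e2] at h4
        exact h4
      · have h2 : g ∈ Z := mem_filter.2 ⟨mem_univ _, hg⟩
        exact congrFun heq.2 ⟨g, h2⟩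
  -- the contradiction
  by_contra hcon
  push Not at hcon
  set Im : Finset (Fin T → ℕ) := univ.image Nv with hIm
  have h1 : (φ : ℝ) ^ T = ∑ N ∈ Im, ((univ.filter (fun a => Nv a = N)).card : ℝ) := by
    have h2 : (univ : Finset (Fin T → U)).card =
        ∑ N ∈ Im, (univ.filter (fun a => Nv a = N)).card :=
      card_eq_sum_card_image Nv univ
    rw [card_univ, Fintype.card_fun, Fintype.card_fin] at h2
    exact_mod_cast h2
  have hterm : ∀ N ∈ Im, ((univ.filter (fun a => Nv a = N)).card : ℝ) <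
      (φ : ℝ) ^ T * (Real.exp (-(2 * T / lam)) * ∏ g, (1 / lam) ^ (N g)) := by
    intro N hN
    obtain ⟨a, _, rfl⟩ := mem_image.1 hN
    have h2 := hsize a
    have h3 : 0 < ∑ g, Nv a g := by
      have : (0 : ℝ) < ((∑ g, Nv a g : ℕ) : ℝ) := hTpos.trans_le h2
      exact_mod_cast this
    obtain ⟨m, hm⟩ : ∃ m, ∑ g, Nv a g = m + 1 := ⟨∑ g, Nv a g - 1, by omega⟩
    have h4 := hcon m (by rw [hm] at h2; push_cast at h2; exact h2)
    have h5 := hfib (Nv a) m hm
    set hN := (univ.filter (fun g => 0 < Nv a g)).card with hhN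
    have hNT : hN ≤ T := by
      rw [hhN]
      refine (card_filter_le _ _).trans ?_
      simp
    have h6 : ((univ.filter (fun b => Nv b = Nv a)).card : ℝ) ≤
        ((univ.filter (fun w : Fin (m + 1) → U => O m w)).card : ℝ) *
          (φ : ℝ) ^ (T - hN) := by exact_mod_cast h5
    have h7 : (0 : ℝ) < (φ : ℝ) ^ (T - hN) := by positivity
    refine lt_of_le_of_lt h6 ?_
    refine lt_of_lt_of_le (mul_lt_mul_of_pos_right h4 h7) ?_
    -- `B ^ (m + 1) * φ ^ (T - h) ≤ φ ^ T * (exp(-2T/lam) * (1/lam)^(m+1))`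
    have h8 := hhit a
    rw [hm] at h8
    have h9 : ((φ : ℝ) ^ β) ^ (m + 1) ≤ (φ : ℝ) ^ hN := by
      rw [← Real.rpow_natCast ((φ : ℝ) ^ β), ← Real.rpow_mul (by linarith), ← Real.rpow_natCast]
      exact Real.rpow_le_rpow_of_exponent_le hφR h8
    have h10 : y ^ (m + 1) ≤ Real.exp (-(2 * T / lam)) * (1 / lam) ^ (m + 1) := by
      have e1 : y = (1 / lam) * Real.exp (-(2 / (lam * η))) := by
        rw [hy, Real.exp_neg]; field_simp
      rw [e1, mul_pow, mul_comm, ← Real.exp_nat_mul]
      apply mul_le_mul_of_nonneg_right _ (by positivity)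
      apply Real.exp_le_exp.2
      rw [hm] at h2
      have h11 : (T : ℝ) * η * (2 / (lam * η)) = 2 * T / lam := by field_simp
      have h12 : 0 < 2 / (lam * η) := by positivity
      push_cast at h2 ⊢
      nlinarith
    have h12 : ∏ g, (1 / lam) ^ (Nv a g) = (1 / lam) ^ (m + 1) := by
      rw [prod_pow_eq_pow_sum, hm]
    rw [h12]
    calc B ^ (m + 1) * (φ : ℝ) ^ (T - hN)
        = (((φ : ℝ) ^ β) ^ (m + 1) * (φ : ℝ) ^ (T - hN)) * y ^ (m + 1) := by
          rw [hB, mul_pow]; ring
      _ ≤ ((φ : ℝ) ^ hN * (φ : ℝ) ^ (T - hN)) * y ^ (m + 1) := by gcongr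
      _ = (φ : ℝ) ^ T * y ^ (m + 1) := by
          rw [← pow_add]
          congr 2
          omega
      _ ≤ (φ : ℝ) ^ T * (Real.exp (-(2 * T / lam)) * (1 / lam) ^ (m + 1)) := by gcongr
  have hImne : Im.Nonempty := ⟨Nv (fun _ => Classical.arbitrary U), mem_image.2 ⟨_, mem_univ _, rfl⟩⟩
  have h2 := sum_lt_sum_of_nonempty hImne hterm
  rw [← h1, ← mul_sum, ← mul_sum] at h2
  have h3 : ∑ N ∈ Im, ∏ g, (1 / lam) ^ (N g) ≤ Real.exp (2 * T / lam) := by
    have hsub : Im ⊆ Fintype.piFinset (fun _ : Fin T => range (T * K + 1)) := by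
      intro N hN
      obtain ⟨a, _, rfl⟩ := mem_image.1 hN
      rw [Fintype.mem_piFinset]
      intro g
      rw [mem_range]
      have h4 : Nv a g ≤ (univ : Finset (Fin (T * K))).card := card_le_card (subset_univ _)
      rw [card_univ, Fintype.card_fin] at h4
      omega
    have hl0 : 0 ≤ 1 / lam := by positivity
    have hl2 : 1 / lam ≤ 1 / 2 := one_div_le_one_div_of_le (by norm_num) hlam
    calc ∑ N ∈ Im, ∏ g, (1 / lam) ^ (N g)
        ≤ ∑ N ∈ Fintype.piFinset (fun _ : Fin T => range (T * K + 1)), ∏ g, (1 / lam) ^ (N g) :=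
          sum_le_sum_of_subset_of_nonneg hsub (fun _ _ _ => prod_nonneg fun _ _ => by positivity)
      _ = ∏ _g : Fin T, ∑ k ∈ range (T * K + 1), (1 / lam) ^ k :=
          (Finset.prod_univ_sum (fun _ : Fin T => range (T * K + 1)) (fun _ k => (1 / lam) ^ k)).symm
      _ ≤ ∏ _g : Fin T, Real.exp (2 * (1 / lam)) := by
          apply prod_le_prod
          · intro _ _; exact sum_nonneg fun _ _ => by positivity
          · intro _ _
            refine le_trans ?_ (one_sub_le (1 / lam) hl0 hl2)
            rw [← tsum_geometric_of_lt_one hl0 (by linarith)]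
            exact Summable.sum_le_tsum _ (fun _ _ => by positivity)
              (summable_geometric_of_lt_one hl0 (by linarith))
      _ = Real.exp (2 * T / lam) := by
          rw [prod_const, card_univ, Fintype.card_fin, ← Real.exp_nat_mul]
          congr 1
          ring
  have h4 : (φ : ℝ) ^ T * (Real.exp (-(2 * T / lam)) * ∑ N ∈ Im, ∏ g, (1 / lam) ^ (N g)) ≤
      (φ : ℝ) ^ T := by
    have h5 : Real.exp (-(2 * T / lam)) * ∑ N ∈ Im, ∏ g, (1 / lam) ^ (N g) ≤ 1 := by
      calc Real.exp (-(2 * T / lam)) * ∑ N ∈ Im, ∏ g, (1 / lam) ^ (N g)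
          ≤ Real.exp (-(2 * T / lam)) * Real.exp (2 * T / lam) := by gcongr
        _ = 1 := by rw [← Real.exp_add]; simp
    calc _ ≤ (φ : ℝ) ^ T * 1 := by gcongr
      _ = _ := mul_one _
  linarith

end Pool.Agent.TH816.RP
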