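import Pool.Agent.TH899.UG.Qd
import Pool.Agent.TH816.RP.ExactPat

set_option autoImplicit false

/-! Two of four groups are hit (coloured Maynard-Tao theorem above one quarter, helper899). -/

namespace Pool.Agent.TH816.RP

open Finset

theorem force_four : ∃ K : ℕ, 1 ≤ K ∧ Force (4 * K) (fun P : Finset (Fin (4 * K)) =>
    ∃ x : Fin (4 * K), x ∈ P ∧ ∃ y : Fin (4 * K), y ∈ P ∧ (x : ℕ) / K < (y : ℕ) / K) := by
  classical
  obtain ⟨K, hK, hmain⟩ := Pool.Agent.TH899.UG.fourC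
  refine ⟨K, hK, ?_⟩
  intro a b ha hinj hadm
  obtain ⟨S, c, hS, hB⟩ := hmain (fun g i => a (finProdFinEquiv (g, i))) (fun g i => b (finProdFinEquiv (g, i)))
    (fun g i => ha _) (fun x y h => finProdFinEquiv.injective (hinj h))
    (fun p hp => by
      obtain ⟨n, hn⟩ := hadm p hp
      exact ⟨n, fun g i => hn _⟩)
  set PP : ℕ → Finset (Fin (4 * K)) := fun n =>
    univ.filter (fun i => ∃ p : ℕ, p.Prime ∧ (p : ℤ) = a i * n + b i) with hPP
  obtain ⟨P, hP⟩ := pigeon PP hB.infinite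
  obtain ⟨n0, hn0, hn0P⟩ := hP.nonempty
  have hval : ∀ (g : Fin 4) (i : Fin K), ((finProdFinEquiv (g, i) : Fin (4 * K)) : ℕ) / K = g := by
    intro g i
    rw [finProdFinEquiv_apply_val]
    simp only
    rw [Nat.add_mul_div_left _ _ (by omega), Nat.div_eq_of_lt i.2, zero_add]
  have hmem : ∀ g ∈ S, finProdFinEquiv (g, c g) ∈ P := by
    intro g hg
    rw [← hn0P]
    refine mem_filter.2 ⟨mem_univ _, ?_⟩
    obtain ⟨h1, h2⟩ := hn0 g hg
    refine ⟨(a (finProdFinEquiv (g, c g)) * (n0 : ℤ) + b (finProdFinEquiv (g, c g))).toNat, ?_, ?_⟩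
    · rw [Nat.prime_iff_prime_int, Int.toNat_of_nonneg h1.le]
      exact h2
    · rw [Int.toNat_of_nonneg h1.le]
  obtain ⟨g, hg, h, hh, hne⟩ := Finset.one_lt_card.1 (show 1 < S.card by omega)
  refine ⟨P, ?_, hP.mono ?_⟩
  · rcases lt_or_gt_of_ne hne with hlt | hlt
    · exact ⟨_, hmem g hg, _, hmem h hh, by rw [hval, hval]; exact hlt⟩
    · exact ⟨_, hmem h hh, _, hmem g hg, by rw [hval, hval]; exact hlt⟩
  · rintro n ⟨_, hn⟩
    intro i
    rw [← hn]
    simp only [hPP, mem_filter, mem_univ, true_and]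

end Pool.Agent.TH816.RP
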