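import Pool.Agent.H358R5.MainC
import Pool.Agent.TH816.RP.ForceNat

set_option autoImplicit false

/-! `exp (4 m + 0.58)` forms contain `m + 1` simultaneous primes (helper358). -/

namespace Pool.Agent.TH816.RP

open Finset

theorem force_many (m K : ℕ) (hm : 2 ≤ m) (hK : Real.exp (4 * m + 29 / 50) ≤ K) :
    Force K (fun P : Finset (Fin K) => m + 1 ≤ P.card) := by
  classical
  apply force_of_nat
  intro a b ha hinj hadm N0
  have hpos : (0 : ℝ) < K := lt_of_lt_of_le (Real.exp_pos _) hK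
  have hlog : 4 * (m : ℝ) + 29 / 50 ≤ Real.log K := (Real.le_log_iff_exp_le hpos).2 hK
  have hcop : ∀ x < K, Nat.Coprime (a x) (b x) := by
    intro x hx
    by_contra hg
    obtain ⟨p, hp, hpd⟩ := Nat.exists_prime_and_dvd hg
    obtain ⟨n, hn⟩ := hadm p hp
    exact hn x hx (dvd_add ((hpd.trans (Nat.gcd_dvd_left _ _)).mul_right _)
      (hpd.trans (Nat.gcd_dvd_right _ _)))
  have hev := Pool.Agent.H358R5.forms_many m K hm hlog (fun i : Fin K => a i) (fun i : Fin K => b i)
    (fun i => ha i i.2)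
    (by
      intro i j hij h
      have h3 : a i ∣ a j := (hcop i i.2).dvd_of_dvd_mul_right (Dvd.intro _ h)
      have h4 : a j ∣ a i := (hcop j j.2).dvd_of_dvd_mul_right (Dvd.intro _ h.symm)
      have h5 : a i = a j := Nat.dvd_antisymm h3 h4
      apply hij
      apply Fin.ext
      apply hinj i i.2 j j.2 h5
      rw [h5] at h
      exact (Nat.eq_of_mul_eq_mul_left (ha j j.2) h).symm)
    (by
      intro p hp
      obtain ⟨n, hn⟩ := hadm p hp
      exact ⟨n, fun i => hn i i.2⟩) (1 / 2) (by norm_num)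
  obtain ⟨x, hx1, hx2, hx3⟩ := (hev.and (((tendsto_rpow_atTop
    (show (0 : ℝ) < 1 - 1 / 2 by norm_num)).eventually_gt_atTop ((N0 + 1 : ℕ) : ℝ)).and
    (Filter.eventually_ge_atTop (0 : ℝ)))).exists
  set S : Set ℕ := {n : ℕ | 1 ≤ n ∧ (n : ℝ) ≤ x ∧
      m + 1 ≤ Set.ncard {i : Fin K | (a i * n + b i).Prime}} with hS
  have hcard : N0 + 1 < S.ncard := by
    have := hx2.trans_le hx1
    exact_mod_cast this
  have : ¬ S ⊆ (Finset.Icc 1 (N0 + 1) : Finset ℕ) := by
    intro hsub
    have h1 := Set.ncard_le_ncard hsub (Finset.finite_toSet _)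
    rw [Set.ncard_coe_finset, Nat.card_Icc] at h1
    omega
  rw [Set.not_subset] at this
  obtain ⟨n, hn, hn2⟩ := this
  refine ⟨n, ?_, ?_⟩
  · rw [Finset.mem_coe, Finset.mem_Icc] at hn2
    have := hn.1
    omega
  · have h1 := hn.2.2
    rw [← Set.ncard_coe_finset]
    refine h1.trans (le_of_eq ?_)
    congr 1
    ext i
    simp

end Pool.Agent.TH816.RP
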