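import Mathlib

set_option autoImplicit false

/-! Consecutive primes and `Nat.nth`. -/

namespace Pool.Agent.TH816.RP

theorem count_next {p p' : ℕ} (hp : p.Prime) (hp' : p'.Prime) (hlt : p < p')
    (hno : ∀ r, p < r → r < p' → ¬ r.Prime) : Nat.count Nat.Prime p' = Nat.count Nat.Prime p + 1 := by
  have h1 : Nat.count Nat.Prime p < Nat.count Nat.Prime p' := Nat.count_strict_mono hp hlt
  by_contra hne
  have h2 : Nat.count Nat.Prime p + 1 < Nat.count Nat.Prime p' := by omega
  have h3 : Nat.nth Nat.Prime (Nat.count Nat.Prime p) < Nat.nth Nat.Prime (Nat.count Nat.Prime p + 1) :=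
    (Nat.nth_lt_nth Nat.infinite_setOf_prime).2 (Nat.lt_succ_self _)
  have h4 : Nat.nth Nat.Prime (Nat.count Nat.Prime p + 1) < Nat.nth Nat.Prime (Nat.count Nat.Prime p') :=
    (Nat.nth_lt_nth Nat.infinite_setOf_prime).2 h2
  rw [Nat.nth_count hp] at h3
  rw [Nat.nth_count hp'] at h4
  exact hno _ h3 h4 (Nat.prime_nth_prime _)

/-- a run of consecutive primes -/
theorem nth_run (p : ℕ → ℕ) (m : ℕ) (hp : ∀ i ≤ m, (p i).Prime) (hlt : ∀ i < m, p i < p (i + 1))
    (hno : ∀ i < m, ∀ r, p i < r → r < p (i + 1) → ¬ r.Prime) :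
    ∀ i ≤ m, Nat.nth Nat.Prime (Nat.count Nat.Prime (p 0) + i) = p i := by
  have h : ∀ i ≤ m, Nat.count Nat.Prime (p i) = Nat.count Nat.Prime (p 0) + i := by
    intro i
    induction i with
    | zero => intro _; rfl
    | succ i ih =>
      intro hi
      rw [count_next (hp i (by omega)) (hp (i + 1) hi) (hlt i (by omega)) (hno i (by omega)),
        ih (by omega)]
      ring
  intro i hi
  rw [← h i hi, Nat.nth_count (hp i hi)]

end Pool.Agent.TH816.RP
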